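import Pool.Agent.MP_1ba41f_an.S2.FM.Spec

/-! The half map on the circle in terms of two real functions. -/

noncomputable section
open Set Complex

namespace Pool.Agent.MP_1ba41f_an.S2.FM

namespace Chart

theorem sq_real {x : ℝ} (hx : 0 ≤ x) : sq (x : ℂ) = (√x : ℝ) := by
  rw [sq, Real.sqrt_eq_rpow, ofReal_cpow hx]
  norm_num

theorem pp (h0 : Fam0Stmt) {M H : ℝ} (h : (M, H) ∈ Box) (φ : ℝ) :
    PP 1 (fK M H) (r2c (fx M H φ)) =
      ((fK M H - 3 / 5 * cG M H φ) / (1 - (2 - (cG M H φ : ℂ) ^ 2 - fD M H) / 2),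
        -(cY M H φ : ℂ) / (2 * (√(fD M H) : ℝ)) / (1 - (2 - (cG M H φ : ℂ) ^ 2 - fD M H) / 2)) := by
  obtain ⟨-, -, hD, -, h1⟩ := h0.2.2.2 M h.1 H h.2
  obtain ⟨-, e1, e2, -⟩ := h1 φ
  have e3 : bs (fK M H) (r2c (fx M H φ)) = (√(fD M H) : ℝ) := by
    rw [bs, e2, sq_real (by linarith)]
  have e4 : bxi (fK M H) (r2c (fx M H φ)) = cxi M H φ := by
    rw [bxi, e1, cxi]
    push_cast
    ring
  have e5 : bG 1 (fK M H) (r2c (fx M H φ)) = cG M H φ := by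
    rw [bG, bL, e2, e3, e4, cG, r2c]
    push_cast
    rw [one_mul]
  have e6 : bEta (fK M H) (r2c (fx M H φ)) = cxi M H φ - 6 / 5 := by
    rw [← e4, bxi, add_sub_cancel_right]
  rw [PP, bX, bY, bG2, e2, e3, e5, e6, cY]
  congr 3
  push_cast
  ring

end Chart

theorem chartS (h0 : Fam0Stmt) : ChartStmt := by
  intro M H h φ φ' h1 h2
  rw [Chart.pp h0 h, Chart.pp h0 h, h1, h2, Gm]
  congr 1
  push_cast
  ring

end Pool.Agent.MP_1ba41f_an.S2.FM
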