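import Pool.Agent.MP_1ba41f_an.S2.FM.Spec

/-! The differential of the first integral on the circle. -/

noncomputable section
open Set Complex

namespace Pool.Agent.MP_1ba41f_an.S2.FM

namespace Grad

theorem fd (κ : ℂ) (m u : C2) (h : m.1 ≠ 0) :
    3 / 5 * m.1 * fderiv ℂ (bD κ) m u =
      u.1 * (-(6 / 5) * m.1 - 2 * bEta κ m * m.1 + 68 / 25 * bEta κ m + 6 / 5 * bEta κ m ^ 2) -
        u.2 * (2 * bEta κ m * m.2) := by
  have h1 : HasFDerivAt (fun m : C2 => m.1) (ContinuousLinearMap.fst ℂ ℂ ℂ) m := hasFDerivAt_fst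
  have h2 : HasFDerivAt (fun m : C2 => m.2) (ContinuousLinearMap.snd ℂ ℂ ℂ) m := hasFDerivAt_snd
  have h3 : (6 / 5 * m.1 : ℂ) ≠ 0 := mul_ne_zero (by norm_num) h
  have h4 := ((((h2.pow 2).add_const (κ ^ 2)).add (h1.pow 2)).sub (h1.const_mul (68 / 25))).mul
    ((hasDerivAt_inv h3).comp_hasFDerivAt m (h1.const_mul (6 / 5)))
  have h5 := ((h1.const_mul 2).const_sub 4).sub (h4.pow 2)
  have e : fderiv ℂ (bD κ) m = _ := HasFDerivAt.fderiv h5
  rw [e]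
  simp [bEta]
  field_simp
  ring

theorem rq_real {M H φ : ℝ} (h : 0 ≤ fq M H (Real.cos φ)) :
    rq M H φ = (√(fq M H (Real.cos φ)) : ℝ) := by
  have e : cq M H (cos φ) = (fq M H (Real.cos φ) : ℝ) := by simp [cq, fq]
  rw [rq, e, sq, Real.sqrt_eq_rpow, ofReal_cpow h]
  norm_num

end Grad

open Grad

theorem gradS (h0 : Fam0Stmt) : GradStmt := by
  intro M H hb φ u
  obtain ⟨-, -, -, h1, h2⟩ := h0.2.2.2 M hb.1 H hb.2
  obtain ⟨h3, h4, -⟩ := h2 φ
  have hM : (M : ℂ) ≠ 0 := ofReal_ne_zero.2 (by linarith [hb.1.1])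
  have h5 := fd (fK M H) (r2c (fx M H φ)) u (ofReal_ne_zero.2 h3.ne')
  rw [h4] at h5
  refine h5.trans ?_
  simp only [det2, Wf, rq_real (le_trans (by norm_num)
    (h1 _ ⟨Real.neg_one_le_cos φ, Real.cos_le_one φ⟩)), r2c, fx, cq, fD, fN]
  generalize √(fq M H (Real.cos φ)) = w
  push_cast
  field_simp
  ring

end Pool.Agent.MP_1ba41f_an.S2.FM
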