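import Mathlib
import Pool.Agent.MP_1ba41f_an.S2.SpecK

/-! The family of circles in the elliptic angle: definitions and statements. -/

noncomputable section
open Set Complex

namespace Pool.Agent.MP_1ba41f_an.S2.FM

/-- complex version of `fq` -/
def cq (M H : ℝ) (x : ℂ) : ℂ := (M + H * x) ^ 2 + 2 * M * (M + H * x) + (fN M H : ℝ)
def rq (M H : ℝ) (z : ℂ) : ℂ := sq (cq M H (cos z))
/-- the circle, with the centre removed and divided by `H` -/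
def Vf (M H : ℝ) (z : ℂ) : C2 := (-(cos z * (M - 3 / 5 + H * cos z / 2)), sin z * rq M H z / 2)
/-- `rq` times the derivative of `Vf` -/
def Wf (M H : ℝ) (z : ℂ) : C2 :=
  (rq M H z * sin z * (M - 3 / 5 + H * cos z),
    (cos z * cq M H (cos z) - (1 - cos z ^ 2) * H * (2 * M + H * cos z)) / 2)
def Rf (M H : ℝ) (x : ℂ) : ℂ :=
  cq M H x * (1 - x ^ 2) * (M - 3 / 5 + H * x) ^ 2 +
    ((x * cq M H x - (1 - x ^ 2) * H * (2 * M + H * x)) / 2) ^ 2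
def rf (M H : ℝ) (z : ℂ) : ℂ := (fc M H : ℝ) + H * (Vf M H z).1
/-- the transversal field -/
def Nf (M H : ℝ) (z : ℂ) : C2 :=
  (rf M H z * (Wf M H z).2 / Rf M H (cos z), -(rf M H z * (Wf M H z).1 / Rf M H (cos z)))

/-- the box of parameters -/
def Box : Set (ℝ × ℝ) := Icc (9 / 10) 1 ×ˢ Icc 0 He

/-! The image of the point `φ = 0` under the involution. -/
def pxi (M H : ℝ) : ℝ := M + 3 / 5 + H
def pG (M H : ℝ) : ℝ := 2 * fK M H * pxi M H / (pxi M H ^ 2 + fD M H)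
def pxj (M H : ℝ) : ℝ :=
  (4 * fK M H * pG M H + 12 / 5 * fD M H) / (pG M H ^ 2 + fD M H) - pxi M H
def pq (M H : ℝ) : ℝ := (pxj M H - 3 / 5) ^ 2 + 2 * M * (pxj M H - 3 / 5) + fN M H
def pu (M H : ℝ) : ℝ := pG M H * (pxj M H - fD M H / pxi M H) / (√(fD M H) * √(pq M H))
def ph1 (M H : ℝ) : ℝ := Real.pi + 2 * Real.arctan (pu M H)

/-! Two real functions on the circle. -/
def cxi (M H φ : ℝ) : ℝ := M + 3 / 5 + H * Real.cos φ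
def cG (M H φ : ℝ) : ℝ :=
  2 * (fK M H * cxi M H φ + √(fD M H) * (fx M H φ).2) / (cxi M H φ ^ 2 + fD M H)
def cY (M H φ : ℝ) : ℝ :=
  cG M H φ ^ 2 * cxi M H φ + fD M H * (cxi M H φ - 6 / 5) - 2 * fK M H * cG M H φ

/-- INV: inversion of a primitive on a strip, with a parameter. -/
def InvStmt : Prop :=
  ∀ (P : Type) [MetricSpace P] [CompactSpace P] (s1 : ℝ) (h : P → ℂ → ℂ), 0 < s1 →
    ContinuousOn (fun q : P × ℂ => h q.1 q.2) (univ ×ˢ strip s1) →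
    (∀ p, DifferentiableOn ℂ (h p) (strip s1)) →
    (∀ p, ∀ z ∈ strip s1, h p (z + 2 * Real.pi) = h p z) →
    (∀ p (x : ℝ), (h p x).im = 0 ∧ 0 < (h p x).re ∧ h p (-x) = h p x) →
    ∃ (s0 : ℝ) (c : P → ℝ) (φ : P → ℂ → ℂ) (ψ chi : P → ℝ → ℝ), 0 < s0 ∧ (∀ p, 0 < c p) ∧
      Continuous c ∧ ContinuousOn (fun q : P × ℂ => φ q.1 q.2) (univ ×ˢ strip s0) ∧
      Continuous (fun q : P × ℝ => chi q.1 q.2) ∧
      ∀ p, (∀ θ ∈ strip s0, φ p θ ∈ strip s1 ∧ HasDerivAt (φ p) (c p / h p (φ p θ)) θ ∧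
          φ p (θ + 2 * Real.pi) = φ p θ + 2 * Real.pi) ∧
        (∀ θ : ℝ, φ p θ = ψ p θ ∧ ψ p (-θ) = -ψ p θ ∧ chi p (ψ p θ) = θ ∧ ψ p (chi p θ) = θ)

/-- STRIP: the formulas are holomorphic on a strip. -/
def StripStmt : Prop :=
  ∃ s1 : ℝ, 0 < s1 ∧
    ContinuousOn (fun q : (ℝ × ℝ) × ℂ =>
      (rq q.1.1 q.1.2 q.2, Vf q.1.1 q.1.2 q.2, Nf q.1.1 q.1.2 q.2)) (Box ×ˢ strip s1) ∧
    ∀ M H : ℝ, (M, H) ∈ Box →
      (∀ z ∈ strip s1, rq M H z ≠ 0 ∧ DifferentiableAt ℂ (rq M H) z ∧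
        DifferentiableAt ℂ (Nf M H) z ∧ HasDerivAt (Vf M H) ((rq M H z)⁻¹ • Wf M H z) z) ∧
      (∀ z : ℂ, rq M H (z + 2 * Real.pi) = rq M H z ∧ Vf M H (z + 2 * Real.pi) = Vf M H z ∧
        Nf M H (z + 2 * Real.pi) = Nf M H z ∧ rq M H (-z) = rq M H z ∧
        Vf M H (-z) = Gm (Vf M H z) ∧ Nf M H (-z) = Gm (Nf M H z)) ∧
      ∀ x : ℝ, rq M H x = (√(fq M H (Real.cos x)) : ℝ) ∧ RealC2 (Vf M H x) ∧ RealC2 (Nf M H x) ∧
        (((fc M H : ℝ) : ℂ), (0 : ℂ)) + (H : ℂ) • Vf M H x = r2c (fx M H x) ∧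
        det2 (Nf M H x) (Wf M H x) = ((fx M H x).1 : ℝ)

/-- POINT: the image of the point `φ = 0`. -/
def PointStmt : Prop :=
  ContinuousOn (fun p : ℝ × ℝ => pu p.1 p.2) Box ∧ ∀ M H : ℝ, (M, H) ∈ Box →
    (pu M H = 0 ↔ M = 1) ∧ cG M H (ph1 M H) = cG M H 0 ∧ cY M H (ph1 M H) = -cY M H 0

/-- ODE: the reflection of the target is a reflection of the elliptic angle. -/
def OdeStmt : Prop :=
  ∀ M H : ℝ, (M, H) ∈ Box → ∀ (c t1 : ℝ) (ψ : ℝ → ℝ),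
    (∀ θ, HasDerivAt ψ (c * √(fq M H (Real.cos (ψ θ)))) θ) →
    cG M H (ψ t1) = cG M H (ψ 0) → cY M H (ψ t1) = -cY M H (ψ 0) →
    ∀ θ, cG M H (ψ (t1 - θ)) = cG M H (ψ θ) ∧ cY M H (ψ (t1 - θ)) = -cY M H (ψ θ)

/-- CHART: the half map in terms of `cG` and `cY`. -/
def ChartStmt : Prop :=
  ∀ M H : ℝ, (M, H) ∈ Box → ∀ φ φ' : ℝ, cG M H φ' = cG M H φ → cY M H φ' = -cY M H φ →
    PP 1 (fK M H) (r2c (fx M H φ')) = Gm (PP 1 (fK M H) (r2c (fx M H φ)))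

/-- GRAD: the differential of the first integral on the circle. -/
def GradStmt : Prop :=
  ∀ M H : ℝ, (M, H) ∈ Box → ∀ (φ : ℝ) (u : C2),
    3 / 5 * (((fx M H φ).1 : ℝ) : ℂ) * fderiv ℂ (bD (fK M H)) (r2c (fx M H φ)) u =
      H * det2 u (Wf M H φ)

/-- COV: the transversality and the symmetry condition, from the first integral. -/
def CovStmt : Prop :=
  ∀ (κ : ℂ) (m : C2), OkM κ m → OkZ κ (PP 1 κ m) →
    (∀ u v : C2, det2 u v ≠ 0 → det2 (fderiv ℂ (PP 1 κ) m u) (fderiv ℂ (PP 1 κ) m v) ≠ 0) ∧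
    ∀ (m' u u' v : C2), OkM κ m' → PP 1 κ m' = Gm (PP 1 κ m) → fderiv ℂ (bD κ) m u ≠ 0 →
      fderiv ℂ (bD κ) m' u' = fderiv ℂ (bD κ) m u → fderiv ℂ (bD κ) m v = 0 →
      det2 (fderiv ℂ (PP 1 κ) m u - Gm (fderiv ℂ (PP 1 κ) m' u')) (fderiv ℂ (PP 1 κ) m v) = 0

/-- NEAR: the circles with `M` close to `1` are close to the resonant ones. -/
def NearStmt : Prop :=
  ∀ d : ℝ, 0 < d → ∃ δ : ℝ, 0 < δ ∧ δ ≤ d ∧ δ ≤ 1 / 10 ∧ ∀ M ∈ Icc (1 - δ) 1, ∀ H ∈ Icc 0 He, ∀ φ,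
    dist (((fK M H : ℝ) : ℂ), r2c (fx M H φ)) (((fK 1 H : ℝ) : ℂ), r2c (fx 1 H φ)) < d

end Pool.Agent.MP_1ba41f_an.S2.FM
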