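import Mathlib
import Pool.Agent.MP_1ba41f_an.S2.FM.Spec

/-! Primitives on a strip. -/

noncomputable section
open Set Complex Metric Filter Topology

namespace Pool.Agent.MP_1ba41f_an.S2.FM.Inv

/-- projection to a closed strip -/
def cl (s : ℝ) (z : ℂ) : ℂ := z.re + (max (-s) (min s z.im) : ℝ) * I

lemma cl_cont (s : ℝ) : Continuous (cl s) := by
  unfold cl; fun_prop

lemma cl_re (s : ℝ) (z : ℂ) : (cl s z).re = z.re := by simp [cl]
lemma cl_im (s : ℝ) (z : ℂ) : (cl s z).im = max (-s) (min s z.im) := by simp [cl]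

lemma cl_abs {s : ℝ} (hs : 0 ≤ s) (z : ℂ) : |(cl s z).im| ≤ s := by
  rw [cl_im, abs_le]
  exact ⟨le_max_left _ _, max_le (by linarith) (min_le_left _ _)⟩

lemma cl_eq {s : ℝ} {z : ℂ} (hz : |z.im| ≤ s) : cl s z = z := by
  rw [abs_le] at hz
  apply Complex.ext
  · exact cl_re s z
  · rw [cl_im, min_eq_right hz.2, max_eq_right hz.1]

lemma cl_add (s : ℝ) (z : ℂ) (t : ℝ) : cl s (z + t) = cl s z + t := by
  apply Complex.ext <;> simp [cl_re, cl_im]

lemma strip_open (s : ℝ) : IsOpen (strip s) :=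
  isOpen_lt (by fun_prop) continuous_const

lemma strip_convex (s : ℝ) : Convex ℝ (strip s) := by
  have : strip s = {z : ℂ | z.im < s} ∩ {z : ℂ | -s < z.im} := by
    ext z; simp only [strip, mem_setOf_eq, mem_inter_iff, abs_lt]; tauto
  rw [this]
  exact (convex_halfSpace_im_lt s).inter (convex_halfSpace_im_gt (-s))

lemma real_mem {s : ℝ} (hs : 0 < s) (x : ℝ) : (x : ℂ) ∈ strip s := by
  simp [strip, hs]

/-- the primitive -/
def pr (g : ℂ → ℂ) (z : ℂ) : ℂ :=
  (∫ x : ℝ in (0 : ℝ)..z.re, g x) + I * ∫ y : ℝ in (0 : ℝ)..z.im, g (z.re + y * I)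

lemma pr_cont {P : Type} [TopologicalSpace P] {g : P → ℂ → ℂ}
    (hg : Continuous fun q : P × ℂ => g q.1 q.2) : Continuous fun q : P × ℂ => pr (g q.1) q.2 := by
  unfold pr
  refine Continuous.add ?_ (continuous_const.mul ?_)
  · refine intervalIntegral.continuous_parametric_intervalIntegral_of_continuous
      (f := fun (q : P × ℂ) (x : ℝ) => g q.1 x) ?_ (by fun_prop)
    exact hg.comp (f := fun w : (P × ℂ) × ℝ => (w.1.1, (w.2 : ℂ))) (by fun_prop)
  · refine intervalIntegral.continuous_parametric_intervalIntegral_of_continuous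
      (f := fun (q : P × ℂ) (y : ℝ) => g q.1 (q.2.re + y * I)) ?_ (by fun_prop)
    exact hg.comp (f := fun w : (P × ℂ) × ℝ => (w.1.1, (w.1.2.re : ℂ) + (w.2 : ℂ) * I))
      (by fun_prop)

lemma pr_deriv {g : ℂ → ℂ} {s : ℝ} (hc : Continuous g) (hd : DifferentiableOn ℂ g (strip s))
    {z : ℂ} (hz : z ∈ strip s) : HasDerivAt (pr g) (g z) z := by
  have hsub : ball (z.re : ℂ) s ⊆ strip s := by
    intro w hw
    rw [mem_ball, dist_eq_norm] at hw
    have := abs_im_le_norm (w - z.re)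
    simp only [sub_im, ofReal_im, sub_zero] at this
    exact lt_of_le_of_lt this hw
  have hz' : z ∈ ball (z.re : ℂ) s := by
    rw [mem_ball, dist_eq_norm]
    have : z - z.re = (z.im : ℂ) * I := by apply Complex.ext <;> simp
    rw [this, norm_mul, norm_I, mul_one, norm_real, Real.norm_eq_abs]
    exact hz
  have h1 := IsConservativeOn.hasDerivAt_wedgeIntegral hc.continuousOn hz'
    (hd.mono hsub).isConservativeOn
  have h2 : pr g = fun w => (∫ x : ℝ in (0 : ℝ)..z.re, g x) + wedgeIntegral (z.re : ℂ) w g := by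
    funext w
    have hi : ∀ a b : ℝ, IntervalIntegrable (fun x : ℝ => g x) MeasureTheory.volume a b :=
      fun a b => (hc.comp continuous_ofReal).intervalIntegrable a b
    simp only [pr, wedgeIntegral, ofReal_re, ofReal_im, ofReal_zero, zero_mul, add_zero,
      smul_eq_mul]
    rw [← add_assoc, intervalIntegral.integral_add_adjacent_intervals (hi _ _) (hi _ _)]
  rw [h2]
  exact h1.const_add _

lemma pr_real (g : ℂ → ℂ) (x : ℝ) : pr g x = ∫ t : ℝ in (0 : ℝ)..x, g t := by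
  simp [pr]

lemma pr_per {g : ℂ → ℂ} (hc : Continuous g) {T : ℝ} (hp : ∀ z, g (z + T) = g z) (z : ℂ) :
    pr g (z + T) = pr g z + pr g T := by
  have hi : ∀ a b : ℝ, IntervalIntegrable (fun x : ℝ => g x) MeasureTheory.volume a b :=
    fun a b => (hc.comp continuous_ofReal).intervalIntegrable a b
  have hper : Function.Periodic (fun x : ℝ => g x) T := by
    intro x; simp only [ofReal_add]; exact hp x
  have h1 := hper.intervalIntegral_add_eq z.re 0
  rw [zero_add] at h1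
  rw [pr_real]
  simp only [pr, add_re, ofReal_re, add_im, ofReal_im, add_zero]
  rw [← intervalIntegral.integral_add_adjacent_intervals (hi 0 z.re) (hi z.re (z.re + T)), h1]
  have h2 : ∀ y : ℝ, g (((z.re + T : ℝ) : ℂ) + y * I) = g (z.re + y * I) := by
    intro y
    rw [← hp (z.re + y * I)]
    congr 1; push_cast; ring
  simp only [h2]
  ring

lemma pr_odd {g : ℂ → ℂ} (he : ∀ x : ℝ, g (-x) = g x) (x : ℝ) : pr g (-x) = -pr g x := by
  rw [← ofReal_neg, pr_real, pr_real]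
  have h := intervalIntegral.integral_comp_neg (a := 0) (b := x) (fun t : ℝ => g t)
  simp only [ofReal_neg, he, neg_zero] at h
  rw [h, intervalIntegral.integral_symm]

lemma pr_im {g : ℂ → ℂ} (he : ∀ x : ℝ, (g x).im = 0) (x : ℝ) : (pr g x).im = 0 := by
  rw [pr_real]
  have : (fun t : ℝ => g t) = fun t : ℝ => (((g t).re : ℝ) : ℂ) := by
    funext t; apply Complex.ext <;> simp [he]
  rw [this, intervalIntegral.integral_ofReal, ofReal_im]

/-- uniform bounds on a thinner strip -/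
lemma bounds {P : Type} [MetricSpace P] [CompactSpace P] {g : P → ℂ → ℂ} {s : ℝ} (hs : 0 < s)
    (hg : Continuous fun q : P × ℂ => g q.1 q.2) (hp : ∀ p z, g p (z + (2 * Real.pi : ℝ)) = g p z)
    (hr : ∀ p (x : ℝ), 0 < (g p x).re) :
    ∃ s2 l L : ℝ, 0 < s2 ∧ s2 ≤ s ∧ 0 < l ∧ l ≤ L ∧
      ∀ p z, |z.im| ≤ s2 → l ≤ (g p z).re ∧ ‖g p z‖ ≤ L := by
  have hc : Continuous fun w : (P × ℝ) × ℝ => g w.1.1 (w.1.2 + w.2 * I) :=
    hg.comp (f := fun w : (P × ℝ) × ℝ => (w.1.1, (w.1.2 : ℂ) + (w.2 : ℂ) * I)) (by fun_prop)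
  have hA : IsCompact ((univ : Set P) ×ˢ Icc (0 : ℝ) (2 * Real.pi)) :=
    isCompact_univ.prod isCompact_Icc
  have hopen : IsOpen {w : (P × ℝ) × ℝ | 0 < (g w.1.1 (w.1.2 + w.2 * I)).re} :=
    isOpen_lt continuous_const (continuous_re.comp hc)
  obtain ⟨u, v, -, hv, hu1, hv1, huv⟩ := generalized_tube_lemma hA
    (isCompact_singleton (x := (0 : ℝ))) hopen (by
      rintro ⟨a, y⟩ ⟨-, hy⟩
      have : y = 0 := hy
      subst this
      simpa using hr a.1 a.2)
  obtain ⟨e, he, hev⟩ := Metric.isOpen_iff.1 hv 0 (hv1 rfl)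
  set s2 := min s (e / 2) with hs2
  have hs2p : 0 < s2 := lt_min hs (by linarith)
  have hK : IsCompact (((univ : Set P) ×ˢ Icc (0 : ℝ) (2 * Real.pi)) ×ˢ Icc (-s2) s2) :=
    hA.prod isCompact_Icc
  obtain ⟨l, hl, hl1⟩ := hK.exists_forall_le' (a := 0) (continuous_re.comp hc).continuousOn (by
    rintro ⟨a, y⟩ ⟨ha, hy⟩
    refine huv ⟨hu1 ha, hev ?_⟩
    rw [mem_ball, dist_zero_right, Real.norm_eq_abs, abs_lt]
    have := min_le_right s (e / 2)
    constructor <;> linarith [hy.1, hy.2])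
  obtain ⟨L, hL⟩ := hK.exists_bound_of_continuousOn hc.continuousOn
  refine ⟨s2, l, max l L, hs2p, min_le_left _ _, hl, le_max_left _ _, fun p z hz => ?_⟩
  have hper : Function.Periodic (fun x : ℝ => g p (x + z.im * I)) (2 * Real.pi) := by
    intro x
    show g p _ = g p _
    rw [← hp p (x + z.im * I)]
    congr 1; push_cast; ring
  obtain ⟨x, hx, hx1⟩ := hper.exists_mem_Ico₀ Real.two_pi_pos z.re
  simp only [re_add_im] at hx1
  have hm : (((p, x), z.im) : (P × ℝ) × ℝ) ∈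
      ((univ : Set P) ×ˢ Icc (0 : ℝ) (2 * Real.pi)) ×ˢ Icc (-s2) s2 :=
    ⟨⟨trivial, hx.1, hx.2.le⟩, abs_le.1 hz⟩
  rw [hx1]
  exact ⟨hl1 _ hm, (hL _ hm).trans (le_max_right _ _)⟩

lemma contr {l L : ℝ} (hl : 0 < l) (hL : l ≤ L) {w : ℂ} (h1 : l ≤ w.re) (h2 : ‖w‖ ≤ L) :
    ‖(l / L ^ 2 : ℝ) * w - 1‖ ≤ 1 - l ^ 2 / (2 * L ^ 2) := by
  have hL0 : 0 < L := hl.trans_le hL
  set t : ℝ := l ^ 2 / L ^ 2 with ht
  have ht1 : t ≤ 1 := by
    rw [ht, div_le_one (by positivity)]; exact pow_le_pow_left₀ hl.le hL 2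
  have e1 : l ^ 2 / (2 * L ^ 2) = t / 2 := by rw [ht]; field_simp
  rw [e1]
  set a : ℝ := l / L ^ 2 with ha
  have ha0 : 0 < a := by positivity
  have e2 : a * l = t := by rw [ha, ht]; field_simp
  have e3 : a ^ 2 * L ^ 2 = t := by rw [ha, ht]; field_simp
  have h3 : w.re ^ 2 + w.im ^ 2 ≤ L ^ 2 := by
    have := pow_le_pow_left₀ (norm_nonneg w) h2 2
    rw [Complex.sq_norm, normSq_apply] at this
    nlinarith
  refine abs_le_of_sq_le_sq' ?_ (by linarith) |>.2
  rw [Complex.sq_norm, normSq_apply]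
  simp only [sub_re, mul_re, ofReal_re, ofReal_im, zero_mul, sub_zero, one_re, sub_im, mul_im,
    add_zero, one_im]
  have h4 : a ^ 2 * (w.re ^ 2 + w.im ^ 2) ≤ a ^ 2 * L ^ 2 := by gcongr
  have h5 : a * l ≤ a * w.re := by gcongr
  nlinarith [sq_nonneg t]

end Pool.Agent.MP_1ba41f_an.S2.FM.Inv
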