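import Mathlib
import Pool.Agent.MP_1ba41f_an.S2.FM.InvA

/-! Inversion of a primitive on a strip. -/

noncomputable section
open Set Complex Metric Filter Topology

namespace Pool.Agent.MP_1ba41f_an.S2.FM
namespace Inv

/-- a primitive with derivative in a sector is close to a multiple of the identity -/
lemma approx {F g : ℂ → ℂ} {s l L : ℝ} (hl : 0 < l) (hL : l ≤ L)
    (hd : ∀ z ∈ strip s, HasDerivAt F (g z) z)
    (hb : ∀ z ∈ strip s, l ≤ (g z).re ∧ ‖g z‖ ≤ L) :
    ∀ x ∈ strip s, ∀ y ∈ strip s,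
      ‖(l / L ^ 2 : ℝ) * F x - (l / L ^ 2 : ℝ) * F y - (x - y)‖ ≤
        (1 - l ^ 2 / (2 * L ^ 2)) * ‖x - y‖ := by
  intro x hx y hy
  have h := (strip_convex s).norm_image_sub_le_of_norm_hasDerivWithin_le
    (f := fun z => ((l / L ^ 2 : ℝ) : ℂ) * F z - z) (f' := fun z => ((l / L ^ 2 : ℝ) : ℂ) * g z - 1)
    (fun z hz => (((hd z hz).const_mul _).sub (hasDerivAt_id z)).hasDerivWithinAt)
    (fun z hz => contr hl hL (hb z hz).1 (hb z hz).2) hy hx
  refine le_of_eq_of_le ?_ h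
  congr 1; ring

lemma lower {F g : ℂ → ℂ} {s l L : ℝ} (hl : 0 < l) (hL : l ≤ L)
    (hd : ∀ z ∈ strip s, HasDerivAt F (g z) z)
    (hb : ∀ z ∈ strip s, l ≤ (g z).re ∧ ‖g z‖ ≤ L) :
    ∀ x ∈ strip s, ∀ y ∈ strip s, l / 2 * ‖x - y‖ ≤ ‖F x - F y‖ := by
  intro x hx y hy
  have hL0 : 0 < L := hl.trans_le hL
  have h := approx hl hL hd hb x hx y hy
  have h1 : ‖x - y‖ ≤ ‖((l / L ^ 2 : ℝ) : ℂ) * (F x - F y)‖ +
      ‖(l / L ^ 2 : ℝ) * F x - (l / L ^ 2 : ℝ) * F y - (x - y)‖ := by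
    refine le_of_eq_of_le ?_ (norm_sub_le _ _)
    congr 1; ring
  rw [norm_mul, norm_real, Real.norm_eq_abs, abs_of_pos (by positivity)] at h1
  have h2 : l / L ^ 2 * (l / 2 * ‖x - y‖) ≤ l / L ^ 2 * ‖F x - F y‖ := by
    have : l / L ^ 2 * (l / 2 * ‖x - y‖) = l ^ 2 / (2 * L ^ 2) * ‖x - y‖ := by field_simp
    rw [this]; linarith
  exact le_of_mul_le_mul_left h2 (by positivity)

lemma onto {F g : ℂ → ℂ} {s l L : ℝ} (hs : 0 < s) (hl : 0 < l) (hL : l ≤ L)
    (hd : ∀ z ∈ strip s, HasDerivAt F (g z) z)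
    (hb : ∀ z ∈ strip s, l ≤ (g z).re ∧ ‖g z‖ ≤ L) (x : ℝ) (w : ℂ)
    (hw : ‖w - F x‖ ≤ l / 2 * (s / 2)) : ∃ z ∈ strip s, F z = w := by
  have hL0 : 0 < L := hl.trans_le hL
  have ht : l ^ 2 / (2 * L ^ 2) ≤ 1 := by
    rw [div_le_one (by positivity)]
    have := pow_le_pow_left₀ hl.le hL 2
    nlinarith [sq_nonneg L]
  have hA : ApproximatesLinearOn (fun z => ((l / L ^ 2 : ℝ) : ℂ) * F z)
      (ContinuousLinearMap.id ℂ ℂ) (strip s) ⟨1 - l ^ 2 / (2 * L ^ 2), by linarith⟩ :=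
    fun x hx y hy => approx hl hL hd hb x hx y hy
  have hsub : closedBall (x : ℂ) (s / 2) ⊆ strip s := by
    intro w hw
    rw [mem_closedBall, dist_eq_norm] at hw
    have := abs_im_le_norm (w - x)
    simp only [sub_im, ofReal_im, sub_zero] at this
    show |w.im| < s
    linarith
  let R : (ContinuousLinearMap.id ℂ ℂ).NonlinearRightInverse :=
    ⟨fun y => y, 1, fun y => by simp, fun y => rfl⟩
  have h := hA.surjOn_closedBall_of_nonlinearRightInverse R (by linarith) hsub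
  have hm : ((l / L ^ 2 : ℝ) : ℂ) * w ∈ closedBall (((l / L ^ 2 : ℝ) : ℂ) * F x)
      ((((R.nnnorm : ℝ))⁻¹ - (1 - l ^ 2 / (2 * L ^ 2))) * (s / 2)) := by
    rw [mem_closedBall, dist_eq_norm, ← mul_sub, norm_mul, norm_real, Real.norm_eq_abs,
      abs_of_pos (by positivity)]
    have e : ((R.nnnorm : ℝ))⁻¹ = 1 := by simp [R]
    rw [e]
    calc l / L ^ 2 * ‖w - F x‖ ≤ l / L ^ 2 * (l / 2 * (s / 2)) := by gcongr
      _ = _ := by field_simp; ring
  obtain ⟨z, hz, hz1⟩ := h hm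
  refine ⟨z, hsub hz, mul_left_cancel₀ ?_ hz1⟩
  exact ofReal_ne_zero.2 (by positivity)

lemma surj {f : ℝ → ℝ} (hc : Continuous f) {T : ℝ} (hT : 0 < T) (h0 : f 0 = 0)
    (hp : ∀ x, f (x + T) = f x + T) : Function.Surjective f := by
  intro y
  have h1 : ∀ n : ℕ, f (n * T) = n * T ∧ f (-(n * T)) = -(n * T) := by
    intro n
    induction n with
    | zero => simp [h0]
    | succ n ih =>
      constructor
      · rw [Nat.cast_succ, add_mul, one_mul, hp, ih.1]
      · have := hp (-(((n + 1 : ℕ) : ℝ) * T))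
        have e : -(((n + 1 : ℕ) : ℝ) * T) + T = -(n * T) := by push_cast; ring
        rw [e, ih.2] at this
        push_cast at this ⊢
        linarith
  obtain ⟨n, hn⟩ := exists_nat_ge (|y| / T)
  rw [div_le_iff₀ hT] at hn
  have h2 := intermediate_value_Icc (a := -(n * T)) (b := n * T)
    (by have := abs_nonneg y; linarith) hc.continuousOn
  rw [(h1 n).1, (h1 n).2] at h2
  obtain ⟨x, -, hx⟩ := h2 (abs_le.1 hn)
  exact ⟨x, hx⟩

end Inv
open Inv

theorem invS : InvStmt := by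
  intro P _ _ s1 h hs1 hc hd hp hr
  have hs' : 0 < s1 / 2 := by linarith
  have hcl : ∀ z, cl (s1 / 2) z ∈ strip s1 := fun z =>
    lt_of_le_of_lt (cl_abs hs'.le z) (by linarith)
  set g : P → ℂ → ℂ := fun p z => h p (cl (s1 / 2) z) with hg
  have gc : Continuous fun q : P × ℂ => g q.1 q.2 :=
    hc.comp_continuous (f := fun q : P × ℂ => (q.1, cl (s1 / 2) q.2))
      (continuous_fst.prodMk ((cl_cont _).comp continuous_snd)) fun q => ⟨trivial, hcl _⟩
  have gc1 : ∀ p, Continuous (g p) := fun p =>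
    gc.comp (f := fun z : ℂ => (p, z)) (by fun_prop)
  have ge : ∀ p z, |z.im| ≤ s1 / 2 → g p z = h p z := fun p z hz => by
    simp only [hg, cl_eq hz]
  have ger : ∀ p (x : ℝ), g p x = h p x := fun p x => ge p x (by simp; linarith)
  have gp : ∀ p z, g p (z + (2 * Real.pi : ℝ)) = g p z := fun p z => by
    simp only [hg, cl_add]
    rw [← hp p _ (hcl z)]; push_cast; rfl
  obtain ⟨s2, l, L, hs2, hs21, hl, hL, hb⟩ := bounds hs' gc gp fun p x => by
    rw [ger]; exact (hr p x).2.1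
  have hL0 : 0 < L := hl.trans_le hL
  have hsub : strip s2 ⊆ strip s1 := fun z hz =>
    lt_of_lt_of_le (show |z.im| < s2 from hz) (by linarith)
  have gs : ∀ p, ∀ z ∈ strip s2, g p z = h p z := fun p z hz =>
    ge p z (le_trans (le_of_lt hz) hs21)
  have gd : ∀ p, DifferentiableOn ℂ (g p) (strip s2) := fun p =>
    ((hd p).mono hsub).congr (gs p)
  have Fd : ∀ p, ∀ z ∈ strip s2, HasDerivAt (pr (g p)) (g p z) z := fun p z hz =>
    pr_deriv (gc1 p) (gd p) hz
  have hb' : ∀ p, ∀ z ∈ strip s2, l ≤ (g p z).re ∧ ‖g p z‖ ≤ L := fun p z hz =>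
    hb p z (le_of_lt hz)
  have Fi : ∀ p (x : ℝ), (pr (g p) x).im = 0 := fun p =>
    pr_im fun x => by rw [ger]; exact (hr p x).1
  have Fc := pr_cont gc
  have pi2 := Real.two_pi_pos
  set c : P → ℝ := fun p => (pr (g p) (2 * Real.pi : ℝ)).re / (2 * Real.pi) with hcdef
  have cc : Continuous c :=
    (continuous_re.comp (Fc.comp (f := fun p : P => (p, ((2 * Real.pi : ℝ) : ℂ)))
      (by fun_prop))).div_const _
  have c2 : ∀ p, pr (g p) (2 * Real.pi : ℝ) = c p * (2 * Real.pi : ℝ) := fun p => by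
    rw [← ofReal_mul, hcdef]
    simp only [div_mul_cancel₀ _ pi2.ne']
    exact Complex.ext (by simp only [ofReal_re]) (by rw [Fi, ofReal_im])
  have cb : ∀ p, 0 < c p ∧ c p ≤ L := fun p => by
    have hi : IntervalIntegrable (fun x : ℝ => g p x) MeasureTheory.volume 0 (2 * Real.pi) :=
      ((gc1 p).comp continuous_ofReal).intervalIntegrable _ _
    constructor
    · refine div_pos ?_ pi2
      rw [pr_real]
      have := (reCLM.intervalIntegral_comp_comm hi).symm
      simp only [reCLM_apply] at this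
      rw [this]
      refine intervalIntegral.intervalIntegral_pos_of_pos
        ((continuous_re.comp ((gc1 p).comp continuous_ofReal)).intervalIntegrable _ _)
        (fun x => ?_) pi2
      exact hl.trans_le (hb' p _ (real_mem hs2 x)).1
    · rw [hcdef]
      simp only
      rw [div_le_iff₀ pi2, pr_real]
      refine (re_le_norm _).trans ?_
      have := intervalIntegral.norm_integral_le_of_norm_le_const (a := 0) (b := 2 * Real.pi)
        (f := fun x : ℝ => g p x) (C := L) fun x _ => (hb' p _ (real_mem hs2 x)).2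
      rwa [sub_zero, abs_of_pos pi2] at this
  have cn : ∀ p, (c p : ℂ) ≠ 0 := fun p => ofReal_ne_zero.2 (cb p).1.ne'
  set chi : P → ℝ → ℝ := fun p x => (pr (g p) x).re / c p with hchi
  have chc : Continuous fun q : P × ℝ => chi q.1 q.2 :=
    (continuous_re.comp (Fc.comp (f := fun q : P × ℝ => (q.1, (q.2 : ℂ))) (by fun_prop))).div
      (cc.comp continuous_fst) fun q => (cb q.1).1.ne'
  have Fchi : ∀ p (x : ℝ), pr (g p) x = c p * chi p x := fun p x => by
    rw [← ofReal_mul, hchi]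
    simp only [mul_div_cancel₀ _ (cb p).1.ne']
    exact Complex.ext (by simp only [ofReal_re]) (by rw [Fi, ofReal_im])
  have Fp : ∀ p z, pr (g p) (z + (2 * Real.pi : ℝ)) = pr (g p) z + c p * (2 * Real.pi : ℝ) :=
    fun p z => by rw [pr_per (gc1 p) (gp p), c2]
  have chs : ∀ p, Function.Surjective (chi p) := fun p => by
    refine surj (chc.comp (f := fun x : ℝ => (p, x)) (by fun_prop)) pi2 ?_ fun x => ?_
    · simp [hchi, pr]
    · have := Fp p x
      rw [← ofReal_add, Fchi, Fchi, ← mul_add] at this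
      exact_mod_cast mul_left_cancel₀ (cn p) this
  have low : ∀ p, ∀ x ∈ strip s2, ∀ y ∈ strip s2, l / 2 * ‖x - y‖ ≤ ‖pr (g p) x - pr (g p) y‖ :=
    fun p => lower hl hL (Fd p) (hb' p)
  have inj : ∀ p, ∀ x ∈ strip s2, ∀ y ∈ strip s2, pr (g p) x = pr (g p) y → x = y := by
    intro p x hx y hy e
    have := low p x hx y hy
    rw [e, sub_self, norm_zero] at this
    have h1 : ‖x - y‖ ≤ 0 := by
      by_contra hn
      have := mul_pos (half_pos hl) (not_le.1 hn)
      linarith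
    exact sub_eq_zero.1 (norm_le_zero_iff.1 h1)
  set s0 : ℝ := l / 2 * (s2 / 2) / L with hs0
  have hs0p : 0 < s0 := by positivity
  have ex : ∀ p θ, ∃ z, θ ∈ strip s0 → z ∈ strip s2 ∧ pr (g p) z = c p * θ := by
    intro p θ
    by_cases hθ : θ ∈ strip s0
    · obtain ⟨x, hx⟩ := chs p θ.re
      obtain ⟨z, hz, hz1⟩ := onto hs2 hl hL (Fd p) (hb' p) x (c p * θ) (by
        rw [Fchi, hx, ← mul_sub, norm_mul, norm_real, Real.norm_eq_abs, abs_of_pos (cb p).1]
        have e : θ - θ.re = (θ.im : ℂ) * I := by apply Complex.ext <;> simp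
        rw [e, norm_mul, norm_I, mul_one, norm_real, Real.norm_eq_abs]
        have h1 : |θ.im| ≤ s0 := le_of_lt hθ
        calc c p * |θ.im| ≤ L * s0 := mul_le_mul (cb p).2 h1 (abs_nonneg _) hL0.le
          _ = _ := by rw [hs0]; field_simp)
      exact ⟨z, fun _ => ⟨hz, hz1⟩⟩
    · exact ⟨0, fun h => absurd h hθ⟩
  choose φ hφ using ex
  have φc : ContinuousOn (fun q : P × ℂ => φ q.1 q.2) (univ ×ˢ strip s0) := by
    rintro ⟨p0, θ0⟩ ⟨-, h0⟩
    have h0' := hφ p0 θ0 h0
    rw [ContinuousWithinAt, tendsto_iff_norm_sub_tendsto_zero]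
    have hlim : Tendsto (fun q : P × ℂ => 2 / l * ‖c q.1 * q.2 - pr (g q.1) (φ p0 θ0)‖)
        (𝓝[univ ×ˢ strip s0] (p0, θ0)) (𝓝 0) := by
      have h1 : Continuous fun q : P × ℂ => 2 / l * ‖c q.1 * q.2 - pr (g q.1) (φ p0 θ0)‖ := by
        refine continuous_const.mul (Continuous.norm (Continuous.sub ?_ ?_))
        · exact (continuous_ofReal.comp (cc.comp continuous_fst)).mul continuous_snd
        · exact Fc.comp (f := fun q : P × ℂ => (q.1, φ p0 θ0)) (by fun_prop)
      have h2 := h1.tendsto (p0, θ0)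
      simp only [h0'.2, sub_self, norm_zero, mul_zero] at h2
      exact h2.mono_left nhdsWithin_le_nhds
    refine squeeze_zero' (Eventually.of_forall fun _ => norm_nonneg _) ?_ hlim
    filter_upwards [self_mem_nhdsWithin] with q hq
    have hq' := hφ q.1 q.2 hq.2
    have := low q.1 _ hq'.1 _ h0'.1
    rw [hq'.2] at this
    rw [div_mul_eq_mul_div, le_div_iff₀ hl]
    linarith
  have φr : ∀ p (x : ℝ), φ p (chi p x) = x := fun p x =>
    inj p _ (hφ p _ (real_mem hs0p _)).1 _ (real_mem hs2 x)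
      (by rw [(hφ p _ (real_mem hs0p _)).2, Fchi])
  have φψ : ∀ p (θ : ℝ), φ p θ = ((φ p θ).re : ℝ) ∧ chi p (φ p θ).re = θ := fun p θ => by
    obtain ⟨x, rfl⟩ := chs p θ
    rw [φr]
    exact ⟨rfl, rfl⟩
  refine ⟨s0, c, φ, fun p θ => (φ p θ).re, chi, hs0p, fun p => (cb p).1, cc, φc, chc,
    fun p => ⟨fun θ hθ => ⟨hsub (hφ p θ hθ).1, ?_, ?_⟩, fun θ => ⟨(φψ p θ).1, ?_, (φψ p θ).2, ?_⟩⟩⟩
  · have hz := hφ p θ hθ
    have hne : g p (φ p θ) ≠ 0 := fun e => by
      have := (hb' p _ hz.1).1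
      rw [e, zero_re] at this
      linarith
    have hca : ContinuousAt (φ p) θ :=
      (φc.comp (f := fun z : ℂ => (p, z)) (s := strip s0) (by fun_prop)
        fun z hz => ⟨trivial, hz⟩).continuousAt ((strip_open s0).mem_nhds hθ)
    have := HasDerivAt.of_local_left_inverse (f := fun z => pr (g p) z / c p) hca
      ((Fd p _ hz.1).div_const (c p : ℂ)) (div_ne_zero hne (cn p)) (by
        filter_upwards [(strip_open s0).mem_nhds hθ] with y hy
        rw [(hφ p y hy).2, mul_div_cancel_left₀ _ (cn p)])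
    rwa [inv_div, gs p _ hz.1] at this
  · have hθ' : θ + 2 * Real.pi ∈ strip s0 := by simpa [strip] using hθ
    have hz := hφ p θ hθ
    have hz' : φ p θ + 2 * Real.pi ∈ strip s2 := by simpa [strip] using hz.1
    refine inj p _ (hφ p _ hθ').1 _ hz' ?_
    have := Fp p (φ p θ)
    push_cast at this
    rw [(hφ p _ hθ').2, this, hz.2]; ring
  · obtain ⟨x, rfl⟩ := chs p θ
    have e : -chi p x = chi p (-x) := by
      have := pr_odd (g := g p) (fun x => by
        rw [← ofReal_neg, ger, ger, ofReal_neg]; exact (hr p x).2.2) x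
      rw [← ofReal_neg, Fchi, Fchi, ← mul_neg] at this
      exact_mod_cast (mul_left_cancel₀ (cn p) this).symm
    show (φ p ((-chi p x : ℝ) : ℂ)).re = -(φ p (chi p x)).re
    rw [e, φr, φr, ofReal_re, ofReal_re]
  · show (φ p (chi p θ)).re = θ
    rw [φr, ofReal_re]

end Pool.Agent.MP_1ba41f_an.S2.FM
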