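import Mathlib
import Pool.Agent.MP_1ba41f_an.S2.FM.InvA

/-! The elliptic angle for the family of circles. -/

noncomputable section
open Set Complex Metric Filter Topology

namespace Pool.Agent.MP_1ba41f_an.S2.FM
namespace Main
open Inv

lemma box {δ : ℝ} (hδ : δ ≤ 1 / 10) (p : PB δ) : (p.1.1, p.1.2) ∈ Box :=
  ⟨⟨by linarith [p.2.1.1], p.2.1.2⟩, p.2.2⟩

lemma compact (δ : ℝ) : CompactSpace (PB δ) :=
  isCompact_iff_compactSpace.1 (isCompact_Icc.prod isCompact_Icc)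

lemma fq_pos (h0 : Fam0Stmt) {M H : ℝ} (h : (M, H) ∈ Box) (x : ℝ) :
    0 < √(fq M H (Real.cos x)) :=
  Real.sqrt_pos.2 (lt_of_lt_of_le (by norm_num)
    ((h0.2.2.2 M h.1 H h.2).2.2.2.1 _ ⟨Real.neg_one_le_cos x, Real.cos_le_one x⟩))

/-- What the elliptic angle gives. -/
structure Ang (δ s0 : ℝ) (c : PB δ → ℝ) (V N : PB δ → ℂ → C2) (ψ chi : PB δ → ℝ → ℝ) : Prop where
  s0pos : 0 < s0
  cpos : ∀ p, 0 < c p
  cv : Crv s0 V
  cn : Crv s0 N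
  chc : Continuous fun q : PB δ × ℝ => chi q.1 q.2
  vr : ∀ p (θ : ℝ), V p θ = Vf p.1.1 p.1.2 (ψ p θ) ∧ N p θ = Nf p.1.1 p.1.2 (ψ p θ) ∧
    deriv (V p) θ = (c p : ℂ) • Wf p.1.1 p.1.2 (ψ p θ)
  der : ∀ p θ, HasDerivAt (ψ p) (c p * √(fq p.1.1 p.1.2 (Real.cos (ψ p θ)))) θ
  odd : ∀ p θ, ψ p (-θ) = -ψ p θ
  per : ∀ p θ, ψ p (θ + 2 * Real.pi) = ψ p θ + 2 * Real.pi
  li : ∀ p θ, chi p (ψ p θ) = θ
  ri : ∀ p θ, ψ p (chi p θ) = θ

lemma ang (hI : InvStmt) (hS : StripStmt) (h0 : Fam0Stmt) {δ : ℝ} (hδ : δ ≤ 1 / 10) :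
    ∃ s0 c V N ψ chi, Ang δ s0 c V N ψ chi := by
  haveI := compact δ
  obtain ⟨s1, hs1, hc, hS⟩ := hS
  have hc' : ContinuousOn (fun q : PB δ × ℂ =>
      (rq q.1.1.1 q.1.1.2 q.2, Vf q.1.1.1 q.1.1.2 q.2, Nf q.1.1.1 q.1.1.2 q.2))
      (univ ×ˢ strip s1) :=
    hc.comp (f := fun q : PB δ × ℂ => (q.1.1, q.2)) (by fun_prop)
      fun q hq => ⟨box hδ q.1, hq.2⟩
  obtain ⟨s0, c, φ, ψ, chi, hs0, hcp, -, hφc, hchi, hφ⟩ := hI (PB δ) s1
    (fun p z => (rq p.1.1 p.1.2 z)⁻¹) hs1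
    (hc'.fst.inv₀ fun q hq => ((hS _ _ (box hδ q.1)).1 _ hq.2).1)
    (fun p z hz => (((hS _ _ (box hδ p)).1 z hz).2.1.inv
      ((hS _ _ (box hδ p)).1 z hz).1).differentiableWithinAt)
    (fun p z _ => by simp only [((hS _ _ (box hδ p)).2.1 z).1])
    (fun p x => by
      refine ⟨?_, ?_, by simp only [((hS _ _ (box hδ p)).2.1 x).2.2.2.1]⟩
      · simp only [((hS _ _ (box hδ p)).2.2 x).1, ← ofReal_inv, ofReal_im]
      · simp only [((hS _ _ (box hδ p)).2.2 x).1, ← ofReal_inv, ofReal_re]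
        exact inv_pos.2 (fq_pos h0 (box hδ p) x))
  have hcomp : ContinuousOn (fun q : PB δ × ℂ =>
      (rq q.1.1.1 q.1.1.2 (φ q.1 q.2), Vf q.1.1.1 q.1.1.2 (φ q.1 q.2),
        Nf q.1.1.1 q.1.1.2 (φ q.1 q.2))) (univ ×ˢ strip s0) :=
    hc'.comp (f := fun q : PB δ × ℂ => (q.1, φ q.1 q.2)) (continuousOn_fst.prodMk hφc)
      fun q hq => ⟨trivial, ((hφ q.1).1 _ hq.2).1⟩
  have hVd : ∀ (p : PB δ), ∀ θ ∈ strip s0, HasDerivAt (fun θ => Vf p.1.1 p.1.2 (φ p θ))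
      ((c p : ℂ) • Wf p.1.1 p.1.2 (φ p θ)) θ := by
    intro p θ hθ
    have h1 := (hφ p).1 θ hθ
    have h2 := (hS _ _ (box hδ p)).1 _ h1.1
    have h3 := h2.2.2.2.scomp θ h1.2.1
    rw [smul_smul, div_mul_cancel₀ _ (inv_ne_zero h2.1)] at h3
    exact h3
  have hneg : ∀ (p : PB δ) (θ : ℝ), φ p (-θ) = -φ p θ := fun p θ => by
    rw [← ofReal_neg, ((hφ p).2 _).1, ((hφ p).2 θ).1, ((hφ p).2 θ).2.1, ofReal_neg]
  refine ⟨s0, c, fun p θ => Vf p.1.1 p.1.2 (φ p θ), fun p θ => Nf p.1.1 p.1.2 (φ p θ), ψ, chi,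
    hs0, hcp, ⟨hcomp.snd.fst, fun p θ hθ => (hVd p θ hθ).differentiableAt.differentiableWithinAt,
      fun p θ hθ => ?_, fun p θ => ?_, fun p θ => ?_⟩,
    ⟨hcomp.snd.snd, fun p θ hθ => ?_, fun p θ hθ => ?_, fun p θ => ?_, fun p θ => ?_⟩, hchi,
    fun p θ => ⟨?_, ?_, ?_⟩, fun p θ => ?_, fun p θ => ((hφ p).2 θ).2.1, fun p θ => ?_,
    fun p θ => ((hφ p).2 θ).2.2.1, fun p θ => ((hφ p).2 θ).2.2.2⟩
  · rw [((hφ p).1 θ hθ).2.2]; exact ((hS _ _ (box hδ p)).2.1 _).2.1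
  · rw [((hφ p).2 θ).1]; exact ((hS _ _ (box hδ p)).2.2 _).2.1
  · rw [hneg]; exact ((hS _ _ (box hδ p)).2.1 _).2.2.2.2.1
  · have h1 := (hφ p).1 θ hθ
    exact (((hS _ _ (box hδ p)).1 _ h1.1).2.2.1.comp θ
      h1.2.1.differentiableAt).differentiableWithinAt
  · rw [((hφ p).1 θ hθ).2.2]; exact ((hS _ _ (box hδ p)).2.1 _).2.2.1
  · rw [((hφ p).2 θ).1]; exact ((hS _ _ (box hδ p)).2.2 _).2.2.1
  · rw [hneg]; exact ((hS _ _ (box hδ p)).2.1 _).2.2.2.2.2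
  · rw [((hφ p).2 θ).1]
  · rw [((hφ p).2 θ).1]
  · rw [(hVd p θ (real_mem hs0 θ)).deriv, ((hφ p).2 θ).1]
  · have h1 := ((hφ p).1 θ (real_mem hs0 θ)).2.1.real_of_complex
    have e : (fun x : ℝ => (φ p x).re) = ψ p := by
      funext x; rw [((hφ p).2 x).1, ofReal_re]
    rw [e, ((hφ p).2 θ).1, ((hS _ _ (box hδ p)).2.2 _).1, div_inv_eq_mul, ← ofReal_mul,
      ofReal_re] at h1
    exact h1
  · have h1 := ((hφ p).1 θ (real_mem hs0 θ)).2.2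
    have e : (θ : ℂ) + 2 * Real.pi = ((θ + 2 * Real.pi : ℝ) : ℂ) := by push_cast; rfl
    rw [e, ((hφ p).2 _).1, ((hφ p).2 θ).1] at h1
    exact_mod_cast h1

variable {δ s0 : ℝ} {c : PB δ → ℝ} {V N : PB δ → ℂ → C2} {ψ chi : PB δ → ℝ → ℝ}

lemma Ang.zero (A : Ang δ s0 c V N ψ chi) (p : PB δ) : ψ p 0 = 0 := by
  have := A.odd p 0
  rw [neg_zero] at this
  linarith

lemma Ang.pi (A : Ang δ s0 c V N ψ chi) (p : PB δ) : ψ p Real.pi = Real.pi := by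
  have h1 := A.per p (-Real.pi)
  rw [A.odd, show -Real.pi + 2 * Real.pi = Real.pi by ring] at h1
  linarith

lemma Ang.mono (A : Ang δ s0 c V N ψ chi) (h0 : Fam0Stmt) (hδ : δ ≤ 1 / 10) (p : PB δ) :
    StrictMono (ψ p) :=
  strictMono_of_deriv_pos fun θ => by
    rw [(A.der p θ).deriv]
    exact mul_pos (A.cpos p) (fq_pos h0 (box hδ p) _)

lemma Ang.res (A : Ang δ s0 c V N ψ chi) (hP : PointStmt) (hδ : δ ≤ 1 / 10) (p : PB δ) :
    -chi p (ph1 p.1.1 p.1.2) = -Real.pi ↔ p.1.1 = 1 := by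
  rw [neg_inj, ← (hP.2 _ _ (box hδ p)).1]
  constructor
  · intro h
    have h1 := A.ri p (ph1 p.1.1 p.1.2)
    rw [h, A.pi, ph1] at h1
    exact Real.arctan_eq_zero_iff.1 (by linarith)
  · intro h
    have h1 := A.li p Real.pi
    rw [A.pi] at h1
    rw [ph1, h, Real.arctan_zero, mul_zero, add_zero, h1]

lemma Ang.ctr (A : Ang δ s0 c V N ψ chi) (h0 : Fam0Stmt) (hS : StripStmt) (hδ : δ ≤ 1 / 10)
    (p : PB δ) (hH : p.1.2 = 0) : ∃ θ : ℝ, (deriv (V p) θ).2 = 0 ∧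
      deriv (V p) (-θ - -chi p (ph1 p.1.1 p.1.2) : ℝ) ≠ -deriv (V p) θ := by
  refine ⟨chi p (Real.pi / 2), ?_, fun h => ?_⟩
  · rw [(A.vr p _).2.2, A.ri, hH]
    simp [Wf]
  · rw [(A.vr p _).2.2, (A.vr p _).2.2, A.ri, hH] at h
    set t1 := chi p (ph1 p.1.1 0) with ht1
    set θ := chi p (Real.pi / 2) with hθ
    set y := ψ p (-θ - -t1) with hy
    have hm := A.mono h0 hδ p
    have e1 : ψ p t1 = ph1 p.1.1 0 := A.ri p _
    have e2 : ψ p θ = Real.pi / 2 := A.ri p _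
    have b1 := Real.neg_pi_div_two_lt_arctan (pu p.1.1 0)
    have b2 := Real.arctan_lt_pi_div_two (pu p.1.1 0)
    have t0 : 0 < t1 := hm.lt_iff_lt.1 (by rw [A.zero, e1, ph1]; linarith)
    have t2 : t1 < 0 + 2 * Real.pi :=
      hm.lt_iff_lt.1 (by rw [A.per, A.zero, e1, ph1]; linarith)
    have y0 : -(Real.pi / 2) < y := by
      rw [← e2, ← A.odd]; exact hm (by linarith)
    have y1 : y < -(Real.pi / 2) + 2 * Real.pi := by
      rw [← e2, ← A.odd, ← A.per]; exact hm (by linarith)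
    have hb := box hδ p
    rw [hH] at hb
    obtain ⟨s1, hs1, -, hS⟩ := hS
    have r0 := ((hS _ _ hb).1 _ (real_mem hs1 y)).1
    have r1 : rq p.1.1 0 ((Real.pi / 2 : ℝ) : ℂ) = rq p.1.1 0 y := by simp [rq, cq]
    have h1 := congrArg Prod.fst h
    simp only [Wf, Prod.smul_fst, Prod.fst_neg, smul_eq_mul, r1, ofReal_zero, zero_mul,
      add_zero, ← ofReal_sin, Real.sin_pi_div_two, ofReal_one, mul_one] at h1
    have c0 : (c p : ℂ) ≠ 0 := ofReal_ne_zero.2 (A.cpos p).ne'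
    have m0 : ((p.1.1 : ℂ) - 3 / 5) ≠ 0 := by
      have : ((p.1.1 : ℂ) - 3 / 5) = ((p.1.1 - 3 / 5 : ℝ) : ℂ) := by push_cast; rfl
      rw [this]
      exact ofReal_ne_zero.2 (by linarith [hb.1.1])
    have h2 : ((Real.sin y : ℝ) : ℂ) = -1 := by
      have : (c p : ℂ) * rq p.1.1 0 y * (p.1.1 - 3 / 5) * (Real.sin y + 1) = 0 := by
        linear_combination h1
      have := (mul_eq_zero.1 this).resolve_left (mul_ne_zero (mul_ne_zero c0 r0) m0)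
      linear_combination this
    have h3 : Real.sin y = -1 := by exact_mod_cast h2
    obtain ⟨k, hk⟩ := Real.sin_eq_neg_one_iff.1 h3
    have pp := Real.pi_pos
    have k0 : (0 : ℝ) < k := by nlinarith
    have k1 : (k : ℝ) < 1 := by nlinarith
    have k0' : 0 < k := by exact_mod_cast k0
    have k1' : k < 1 := by exact_mod_cast k1
    omega

lemma dense (h0 : Fam0Stmt) (δ : ℝ) : Dense {p : PB δ | 0 < p.1.2} := by
  intro p
  rw [Metric.mem_closure_iff]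
  intro e he
  rcases p.2.2.1.lt_or_eq with h | h
  · exact ⟨p, h, by simpa using he⟩
  · have hm : 0 < min (e / 2) He := lt_min (by linarith) h0.2.1
    refine ⟨⟨(p.1.1, min (e / 2) He), p.2.1, hm.le, min_le_right _ _⟩, hm, ?_⟩
    rw [Subtype.dist_eq, Prod.dist_eq, dist_self, Real.dist_eq]
    show max 0 |p.1.2 - min (e / 2) He| < e
    rw [← h, zero_sub, abs_neg, abs_of_pos hm, max_lt_iff]
    exact ⟨he, lt_of_le_of_lt (min_le_left _ _) (by linarith)⟩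

lemma fc_cont {δ : ℝ} (hδ : δ ≤ 1 / 10) : Continuous fun p : PB δ => fc p.1.1 p.1.2 := by
  unfold fc fD
  have h : Continuous fun p : PB δ => 6 / (5 * p.1.1) :=
    continuous_const.div (by fun_prop) fun p => by
      have := (box hδ p).1.1
      simp only at this
      positivity
  fun_prop

lemma fK_cont (h0 : Fam0Stmt) {δ : ℝ} (hδ : δ ≤ 1 / 10) :
    Continuous fun p : PB δ => fK p.1.1 p.1.2 :=
  (h0.1.comp_continuous (f := fun p : PB δ => (p.1.1, p.1.2, (0 : ℝ))) (by fun_prop)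
    fun p => ⟨(box hδ p).1, (box hδ p).2, trivial⟩).fst

/-- the regular set contains a neighbourhood of the resonant circles -/
lemma good (hA : AnaStmt) (hB : BaseStmt) : ∃ d1 : ℝ, 0 < d1 ∧ ∀ x ∈ thickening d1 B1,
    OkM x.1 x.2 ∧ OkZ x.1 (PP 1 x.1 x.2) := by
  have h1 : ContinuousOn (fun x : ℂ × C2 => (x.1, PP 1 x.1 x.2)) {x | OkM x.1 x.2} :=
    continuousOn_fst.prodMk (hA.1.2 1 (Or.inl rfl)).1.continuousOn
  have h2 := h1.isOpen_inter_preimage hA.1.1 hA.2.1.1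
  obtain ⟨d1, hd1, h3⟩ := hB.1.exists_thickening_subset_open h2 fun x hx =>
    ⟨(hB.2.1 x hx).2.2.2.2.2.1, (hB.2.1 x hx).2.2.2.2.2.2.2.1⟩
  exact ⟨d1, hd1, fun x hx => h3 hx⟩

end Main
end Pool.Agent.MP_1ba41f_an.S2.FM
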