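import Mathlib
import Pool.Agent.MP_1ba41f_an.S2.FM.MainA

/-! The family of circles: assembly. -/

noncomputable section
open Set Complex Metric Filter Topology

namespace Pool.Agent.MP_1ba41f_an.S2.FM
open Main Inv

theorem famOf (hI : InvStmt) (hS : StripStmt) (hP : PointStmt) (hO : OdeStmt) (hC : ChartStmt)
    (hG : GradStmt) (hV : CovStmt) (hN : NearStmt) (hM : AlgMStmt) (hA : AnaStmt)
    (hB : BaseStmt) (h0 : Fam0Stmt) : FamStmt := by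
  intro d hd
  obtain ⟨d1, hd1, hgood⟩ := good hA hB
  have hd' : 0 < min d d1 / 2 := half_pos (lt_min hd hd1)
  obtain ⟨δ, hδ0, hδ1, hδ, hnear⟩ := hN _ hd'
  obtain ⟨s0, c, V, N, ψ, chi, A⟩ := Main.ang hI hS h0 hδ
  have hS' := hS
  obtain ⟨s1, -, -, hS1⟩ := hS'
  have m1 := min_le_left d d1
  have m2 := min_le_right d d1
  have hcur : ∀ (p : PB δ) (θ : ℝ),
      cur (fun p : PB δ => p.1.2) (fun p => fc p.1.1 p.1.2) V p θ =
        r2c (fx p.1.1 p.1.2 (ψ p θ)) := fun p θ => by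
    rw [cur, (A.vr p θ).1]
    exact ((hS1 _ _ (box hδ p)).2.2 _).2.2.2.1
  have hth : ∀ p : PB δ, ∀ m ∈ nbh (min d d1 / 2) (fun p : PB δ => p.1.2)
      (fun p => fc p.1.1 p.1.2) V p,
      (((fK p.1.1 p.1.2 : ℝ) : ℂ), m) ∈ thickening (min d d1) B1 := by
    rintro p m ⟨θ, hθ⟩
    rw [hcur] at hθ
    rw [mem_thickening_iff]
    refine ⟨_, ((h0.2.2.2 1 ⟨by norm_num, le_rfl⟩ p.1.2 p.2.2).2.2.2.2 (ψ p θ)).2.2.2.2 rfl, ?_⟩
    have h1 := hnear p.1.1 p.2.1 p.1.2 p.2.2 (ψ p θ)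
    have h2 : dist (((fK p.1.1 p.1.2 : ℝ) : ℂ), m)
        (((fK p.1.1 p.1.2 : ℝ) : ℂ), r2c (fx p.1.1 p.1.2 (ψ p θ))) < min d d1 / 2 := by
      rw [Prod.dist_eq, dist_self, dist_eq_norm, max_lt_iff]
      exact ⟨hd', hθ⟩
    have h3 := dist_triangle (((fK p.1.1 p.1.2 : ℝ) : ℂ), m)
      (((fK p.1.1 p.1.2 : ℝ) : ℂ), r2c (fx p.1.1 p.1.2 (ψ p θ)))
      (((fK 1 p.1.2 : ℝ) : ℂ), r2c (fx 1 p.1.2 (ψ p θ)))
    linarith
  have hok : ∀ p : PB δ, ∀ m ∈ nbh (min d d1 / 2) (fun p : PB δ => p.1.2)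
      (fun p => fc p.1.1 p.1.2) V p,
      OkM (fK p.1.1 p.1.2) m ∧ OkZ (fK p.1.1 p.1.2) (PP 1 (fK p.1.1 p.1.2) m) :=
    fun p m hm => hgood _ (thickening_mono m2 _ (hth p m hm))
  have hok' : ∀ (p : PB δ) (θ : ℝ), OkM (fK p.1.1 p.1.2) (r2c (fx p.1.1 p.1.2 (ψ p θ))) ∧
      OkZ (fK p.1.1 p.1.2) (PP 1 (fK p.1.1 p.1.2) (r2c (fx p.1.1 p.1.2 (ψ p θ)))) :=
    fun p θ => hok p _ ⟨θ, by rw [hcur, sub_self, norm_zero]; exact hd'⟩
  have hPP := (hA.1.2 1 (Or.inl rfl)).1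
  have hinv : ∀ (p : PB δ) (θ : ℝ),
      PP 1 (fK p.1.1 p.1.2) (r2c (fx p.1.1 p.1.2 (ψ p (-θ - -chi p (ph1 p.1.1 p.1.2))))) =
        Gm (PP 1 (fK p.1.1 p.1.2) (r2c (fx p.1.1 p.1.2 (ψ p θ)))) := by
    intro p θ
    have h1 := hP.2 _ _ (box hδ p)
    have h2 := hO _ _ (box hδ p) (c p) (chi p (ph1 p.1.1 p.1.2)) (ψ p) (A.der p)
      (by rw [A.ri, A.zero]; exact h1.2.1) (by rw [A.ri, A.zero]; exact h1.2.2) θ
    rw [show -θ - -chi p (ph1 p.1.1 p.1.2) = chi p (ph1 p.1.1 p.1.2) - θ by ring]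
    exact hC _ _ (box hδ p) _ _ h2.1 h2.2
  have hr : ∀ (p : PB δ) (x : ℝ), (((fx p.1.1 p.1.2 x).1 : ℝ) : ℂ) ≠ 0 := fun p x =>
    ofReal_ne_zero.2 ((h0.2.2.2 _ (box hδ p).1 _ (box hδ p).2).2.2.2.2 x).1.ne'
  have hdet : ∀ (p : PB δ) (x : ℝ),
      det2 (Nf p.1.1 p.1.2 x) (Wf p.1.1 p.1.2 x) = ((fx p.1.1 p.1.2 x).1 : ℝ) := fun p x =>
    ((hS1 _ _ (box hδ p)).2.2 x).2.2.2.2
  have hgN : ∀ (p : PB δ) (x : ℝ), fderiv ℂ (bD (fK p.1.1 p.1.2)) (r2c (fx p.1.1 p.1.2 x))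
      (Nf p.1.1 p.1.2 x) = 5 / 3 * p.1.2 := fun p x => by
    have h1 := hG _ _ (box hδ p) x (Nf p.1.1 p.1.2 x)
    rw [hdet] at h1
    refine mul_left_cancel₀ (hr p x) ?_
    linear_combination 5 / 3 * h1
  have hgW : ∀ (p : PB δ) (x : ℝ) (a : ℂ), fderiv ℂ (bD (fK p.1.1 p.1.2)) (r2c (fx p.1.1 p.1.2 x))
      (a • Wf p.1.1 p.1.2 x) = 0 := fun p x a => by
    have h1 := hG _ _ (box hδ p) x (a • Wf p.1.1 p.1.2 x)
    have h2 : det2 (a • Wf p.1.1 p.1.2 x) (Wf p.1.1 p.1.2 x) = 0 := by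
      simp only [det2, Prod.smul_fst, Prod.smul_snd, smul_eq_mul]; ring
    rw [h2] at h1
    refine mul_left_cancel₀ (hr p x) ?_
    linear_combination 5 / 3 * h1
  have hKc : Continuous fun p : PB δ => ((fK p.1.1 p.1.2 : ℝ) : ℂ) :=
    continuous_ofReal.comp (fK_cont h0 hδ)
  refine ⟨δ, hδ0, by linarith, hδ, s0, min d d1 / 2, fun p => -chi p (ph1 p.1.1 p.1.2), V, N, chi,
    ⟨A.s0pos, hd', by fun_prop, fun p => p.2.2.1, dense h0 δ, fc_cont hδ, ?_, A.cv, A.cn, ?_,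
      fun p => ?_, fun p m hm hre => ?_, fun p θ => ?_, fun p θ => ?_, fun p θ hH => ?_,
      fun p hH => A.ctr h0 hS hδ p hH⟩,
    fun p m hm => thickening_mono m1 _ (hth p m hm), fun p => A.res hP hδ p,
    fun p => A.chc.comp (f := fun x : ℝ => (p, x)) (by fun_prop), fun p φ => ⟨?_, ?_⟩⟩
  · have h1 : Continuous fun p : PB δ => pu p.1.1 p.1.2 :=
      hP.1.comp_continuous (f := fun p : PB δ => p.1) (by fun_prop) fun p => box hδ p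
    have h2 : Continuous fun p : PB δ => ph1 p.1.1 p.1.2 :=
      continuous_const.add (continuous_const.mul (Real.continuous_arctan.comp h1))
    exact (A.chc.comp (f := fun p : PB δ => (p, ph1 p.1.1 p.1.2)) (continuous_id.prodMk h2)).neg
  · exact hPP.continuousOn.comp
      (f := fun q : PB δ × C2 => (((fK q.1.1.1 q.1.1.2 : ℝ) : ℂ), q.2))
      ((hKc.comp continuous_fst).prodMk continuous_snd).continuousOn
      fun q hq => (hok q.1 q.2 hq).1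
  · exact hPP.comp (f := fun m : C2 => (((fK p.1.1 p.1.2 : ℝ) : ℂ), m)) (by fun_prop)
      fun m hm => (hok p m hm).1
  · exact (hM.2.1 1 _ m (ofReal_im _) hre (hok p m hm).1).1
  · rw [hcur, hcur]; exact hinv p θ
  · rw [hcur, (A.vr p θ).2.1, (A.vr p θ).2.2]
    refine (hV _ _ (hok' p θ).1 (hok' p θ).2).1 _ _ ?_
    have : det2 (Nf p.1.1 p.1.2 (ψ p θ)) ((c p : ℂ) • Wf p.1.1 p.1.2 (ψ p θ)) =
        c p * det2 (Nf p.1.1 p.1.2 (ψ p θ)) (Wf p.1.1 p.1.2 (ψ p θ)) := by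
      simp only [det2, Prod.smul_fst, Prod.smul_snd, smul_eq_mul]; ring
    rw [this, hdet]
    exact mul_ne_zero (ofReal_ne_zero.2 (A.cpos p).ne') (hr p _)
  · rw [hcur, hcur, (A.vr p θ).2.1, (A.vr p θ).2.2, (A.vr p _).2.1]
    refine (hV _ _ (hok' p θ).1 (hok' p θ).2).2 _ _ _ _ (hok' p _).1 (hinv p θ) ?_ ?_
      (hgW p _ _)
    · rw [hgN]
      exact mul_ne_zero (by norm_num) (ofReal_ne_zero.2 (ne_of_gt hH))
    · rw [hgN, hgN]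
  · rw [hcur, A.ri]
  · have := hnear p.1.1 p.2.1 p.1.2 p.2.2 φ
    linarith

end Pool.Agent.MP_1ba41f_an.S2.FM
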