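import Pool.Agent.MP_1ba41f_an.S2.FM.Spec

/-! The reflection of the target is a reflection of the elliptic angle. -/

noncomputable section
open Set

namespace Pool.Agent.MP_1ba41f_an.S2.FM

namespace Ode

theorem uniq {E : Type} [NormedAddCommGroup E] [NormedSpace ℝ E] {v : E → E}
    (hv : ContDiff ℝ 1 v) {a b : ℝ → E} (ha : ∀ t, HasDerivAt a (v (a t)) t)
    (hb : ∀ t, HasDerivAt b (v (b t)) t) (h0 : a 0 = b 0) (t : ℝ) : a t = b t := by
  have ca : Continuous a := continuous_iff_continuousAt.2 fun t => (ha t).continuousAt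
  have cb : Continuous b := continuous_iff_continuousAt.2 fun t => (hb t).continuousAt
  have hK : IsCompact (a '' Icc (-(|t| + 1)) (|t| + 1) ∪ b '' Icc (-(|t| + 1)) (|t| + 1)) :=
    (isCompact_Icc.image ca).union (isCompact_Icc.image cb)
  obtain ⟨K, hL⟩ := LocallyLipschitzOn.exists_lipschitzOnWith_of_compact hK
    hv.locallyLipschitz.locallyLipschitzOn
  have h1 := abs_nonneg t
  have h2 := le_abs_self t
  have h3 := neg_abs_le t
  exact ODE_solution_unique_of_mem_Ioo (v := fun _ => v) (s := fun _ => _) (K := K)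
    (a := -(|t| + 1)) (b := |t| + 1) (t₀ := 0) (fun _ _ => hL) ⟨by linarith, by linarith⟩
    (fun u hu => ⟨ha u, Or.inl ⟨u, Ioo_subset_Icc_self hu, rfl⟩⟩)
    (fun u hu => ⟨hb u, Or.inr ⟨u, Ioo_subset_Icc_self hu, rfl⟩⟩) h0 ⟨by linarith, by linarith⟩

/-- the right hand side of the second order equation for `G` -/
def Rh (k D G : ℝ) : ℝ :=
  k * (4 * k * G + 12 / 5 * D) - G * (G ^ 2 * D + D ^ 2 + 4 * k ^ 2 - 64 / 25 * D) -
    G * D * (G ^ 2 + D)

/-- the equations for `G` and `Y` along a solution of the equations for `ξ` and `P` -/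
theorem flowGY {k s D c θ : ℝ} {ξ P : ℝ → ℝ} (hs : s ^ 2 = D) (hs0 : 0 < s)
    (hξ : HasDerivAt ξ (c * (-2 * P θ)) θ)
    (hP : HasDerivAt P (c * ((ξ θ - 6 / 5) * (ξ θ ^ 2 + D) / 2 -
      (4 - D - (ξ θ - 6 / 5) ^ 2) / 2 * ξ θ)) θ)
    (hI : P θ ^ 2 = (4 - D - (ξ θ - 6 / 5) ^ 2) / 2 * (ξ θ ^ 2 + D) / 2 - k ^ 2)
    (G : ℝ → ℝ) (hG : ∀ t, G t = 2 * (k * ξ t + s * P t) / (ξ t ^ 2 + D)) :
    HasDerivAt G (c / s * (G θ ^ 2 * ξ θ + D * (ξ θ - 6 / 5) - 2 * k * G θ)) θ ∧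
    HasDerivAt (fun t => G t ^ 2 * ξ t + D * (ξ t - 6 / 5) - 2 * k * G t)
      (c / s * Rh k D (G θ)) θ := by
  have hD : 0 < D := by rw [← hs]; positivity
  have hL : ξ θ ^ 2 + D ≠ 0 := by positivity
  have e1 : s * P θ = G θ * (ξ θ ^ 2 + D) / 2 - k * ξ θ := by
    rw [hG θ]; field_simp; ring
  have eF : G θ ^ 2 * (ξ θ ^ 2 + D) - 4 * k * ξ θ * G θ + 4 * k ^ 2 =
      D * (4 - D - (ξ θ - 6 / 5) ^ 2) := by
    refine mul_left_cancel₀ hL ?_
    have e2 : D * P θ ^ 2 = (G θ * (ξ θ ^ 2 + D) / 2 - k * ξ θ) ^ 2 := by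
      rw [← e1, ← hs]; ring
    linear_combination 4 * D * hI - 4 * e2
  obtain ⟨u, rfl⟩ : ∃ u, c = s * u := ⟨c / s, by field_simp⟩
  rw [mul_div_cancel_left₀ u hs0.ne']
  have d1 : HasDerivAt G (u * (G θ ^ 2 * ξ θ + D * (ξ θ - 6 / 5) - 2 * k * G θ)) θ := by
    have h1 := (((hξ.const_mul k).add (hP.const_mul s)).const_mul 2).div
      ((hξ.pow 2).add_const D) hL
    have h2 : G = (fun t => 2 * ((fun y => k * ξ y) + fun y => s * P y) t) /
        fun t => (ξ ^ 2) t + D := funext fun t => hG t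
    rw [← h2] at h1
    refine h1.congr_deriv ?_
    simp only [Pi.add_apply, Pi.pow_apply]
    rw [div_eq_iff (pow_ne_zero 2 hL)]
    push_cast
    linear_combination
      u * (2 * (ξ θ ^ 2 + D) * ((ξ θ - 6 / 5) * (ξ θ ^ 2 + D) / 2 -
        (4 - D - (ξ θ - 6 / 5) ^ 2) / 2 * ξ θ)) * hs
      + u * (-4 * k * (ξ θ ^ 2 + D) + 8 * ξ θ * (k * ξ θ) +
        8 * ξ θ * (s * P θ + (G θ * (ξ θ ^ 2 + D) / 2 - k * ξ θ))) * e1
      + u * ξ θ * (ξ θ ^ 2 + D) * eF
  refine ⟨d1, ?_⟩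
  have h3 := (((d1.pow 2).mul hξ).add ((hξ.sub_const (6 / 5)).const_mul D)).sub
    (d1.const_mul (2 * k))
  refine HasDerivAt.congr_deriv h3 ?_
  simp only [Pi.pow_apply, Rh]
  push_cast
  linear_combination (-2 * u * (G θ ^ 2 + D)) * e1 + u * G θ * eF

end Ode

open Ode

theorem odeS (h0 : Fam0Stmt) : OdeStmt := by
  intro M H hB c t1 ψ hψ g0 y0
  obtain ⟨-, hk, hD, hq, -⟩ := h0.2.2.2 M hB.1 H hB.2
  have hM : M ≠ 0 := by have := hB.1.1; simp only at this; linarith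
  have hD0 : 0 < fD M H := by linarith
  have hq0 : ∀ φ, 0 < fq M H (Real.cos φ) := fun φ => by
    have := hq _ ⟨Real.neg_one_le_cos φ, Real.cos_le_one φ⟩
    linarith
  have key : ∀ θ, HasDerivAt (fun t => (cG M H (ψ t), cY M H (ψ t)))
      (c / √(fD M H) * cY M H (ψ θ), c / √(fD M H) * Rh (fK M H) (fD M H) (cG M H (ψ θ))) θ := by
    intro θ
    have hr := Real.sq_sqrt (hq0 (ψ θ)).le
    have hr0 := Real.sqrt_pos.2 (hq0 (ψ θ))
    have hsc := Real.sin_sq_add_cos_sq (ψ θ)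
    have hcos := (hψ θ).cos
    have h1 : HasDerivAt (fun t => cxi M H (ψ t)) (c * (-2 * (fx M H (ψ θ)).2)) θ := by
      refine ((hcos.const_mul H).const_add (M + 3 / 5)).congr_deriv ?_
      simp only [fx]; ring
    have hq' : HasDerivAt (fun t => fq M H (Real.cos (ψ t)))
        (2 * H * (2 * M + H * Real.cos (ψ θ)) *
          (-Real.sin (ψ θ) * (c * √(fq M H (Real.cos (ψ θ)))))) θ := by
      have a1 := (hcos.const_mul H).const_add M
      refine (((a1.pow 2).add (a1.const_mul (2 * M))).add_const (fN M H)).congr_deriv ?_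
      push_cast; ring
    have h2 : HasDerivAt (fun t => (fx M H (ψ t)).2)
        (c * ((cxi M H (ψ θ) - 6 / 5) * (cxi M H (ψ θ) ^ 2 + fD M H) / 2 -
          (4 - fD M H - (cxi M H (ψ θ) - 6 / 5) ^ 2) / 2 * cxi M H (ψ θ))) θ := by
      refine ((((hψ θ).sin.const_mul H).mul (hq'.sqrt (hq0 _).ne')).div_const 2).congr_deriv ?_
      have a2 : (cxi M H (ψ θ) - 6 / 5) * (cxi M H (ψ θ) ^ 2 + fD M H) / 2 -
          (4 - fD M H - (cxi M H (ψ θ) - 6 / 5) ^ 2) / 2 * cxi M H (ψ θ) =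
          H * (Real.cos (ψ θ) * fq M H (Real.cos (ψ θ)) -
            (1 - Real.cos (ψ θ) ^ 2) * H * (2 * M + H * Real.cos (ψ θ))) / 2 := by
        simp only [cxi, fq, fN, fD]
        field_simp
        ring
      rw [a2, ← hsc, add_sub_cancel_right]
      generalize √(fq M H (Real.cos (ψ θ))) = w at *
      rw [← hr]
      field_simp
      ring
    have h3 : (fx M H (ψ θ)).2 ^ 2 = (4 - fD M H - (cxi M H (ψ θ) - 6 / 5) ^ 2) / 2 *
        (cxi M H (ψ θ) ^ 2 + fD M H) / 2 - fK M H ^ 2 := by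
      have a3 : fK M H ^ 2 = (fN M H * (M ^ 2 - H ^ 2) + 4 - (41 / 25 - fD M H) ^ 2) / 4 := by
        linarith
      have a4 : Real.sin (ψ θ) ^ 2 = 1 - Real.cos (ψ θ) ^ 2 := by linarith
      simp only [fx, div_pow, mul_pow, hr, a3, a4]
      simp only [cxi, fq, fN, fD]
      field_simp
      ring
    obtain ⟨d1, d2⟩ := flowGY (k := fK M H) (ξ := fun t => cxi M H (ψ t))
      (P := fun t => (fx M H (ψ t)).2) (Real.sq_sqrt hD0.le) (Real.sqrt_pos.2 hD0) h1 h2 h3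
      (fun t => cG M H (ψ t)) fun _ => rfl
    exact d1.prodMk d2
  have hv : ContDiff ℝ 1 fun p : ℝ × ℝ =>
      (-(c / √(fD M H)) * p.2, -(c / √(fD M H)) * Rh (fK M H) (fD M H) p.1) := by
    unfold Rh
    fun_prop
  intro θ
  have := uniq hv (a := fun t => (cG M H (ψ (t1 - t)), cY M H (ψ (t1 - t))))
    (b := fun t => (cG M H (ψ t), -cY M H (ψ t))) (fun t => ?_) (fun t => ?_) ?_ θ
  · exact ⟨congrArg Prod.fst this, congrArg Prod.snd this⟩
  · have a1 : HasDerivAt (fun u : ℝ => t1 - u) (-1) t := by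
      simpa using (hasDerivAt_id t).const_sub t1
    refine HasDerivAt.congr_deriv ((key (t1 - t)).scomp t a1) ?_
    simp
  · have a1 := (ContinuousLinearMap.fst ℝ ℝ ℝ).hasFDerivAt.comp_hasDerivAt t (key t)
    have a2 := (ContinuousLinearMap.snd ℝ ℝ ℝ).hasFDerivAt.comp_hasDerivAt t (key t)
    refine HasDerivAt.congr_deriv (a1.prodMk a2.neg) ?_
    simp
  · simp [g0, y0]

end Pool.Agent.MP_1ba41f_an.S2.FM
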