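import Pool.Agent.MP_1ba41f_an.S2.FM.Spec

/-! The image of the point `φ = 0` under the involution. -/

noncomputable section
open Set

namespace Pool.Agent.MP_1ba41f_an.S2.FM

namespace Point

/-- the algebra of the second root -/
theorem alg {D k x0 x1 G H q0 q1 u s t : ℝ} (hD : 0 < D) (hx : 0 < x0) (hq0 : 0 < q0)
    (hs : 0 < s) (ht : 0 < t) (hs2 : s ^ 2 = D) (ht2 : t ^ 2 = q1)
    (hG : G * (x0 ^ 2 + D) = 2 * k * x0)
    (h1 : (G ^ 2 + D) * (x0 + x1) = 4 * k * G + 12 / 5 * D)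
    (hu : u * (s * t) * x0 = G * (x1 * x0 - D))
    (K0 : (64 / 25 - D - x0 ^ 2 + 12 / 5 * x0) * (x0 ^ 2 + D) = 4 * k ^ 2)
    (K1 : (64 / 25 - D - x1 ^ 2 + 12 / 5 * x1) * (x1 ^ 2 + D) - 4 * k ^ 2 =
      (x0 - x1) * (x1 - x0 + 2 * H) * q1)
    (K2 : (2 * x0 - 12 / 5) * (x0 ^ 2 + D) - (64 / 25 - D - x0 ^ 2 + 12 / 5 * x0) * (2 * x0) =
      2 * H * q0) :
    (G ^ 2 + D) * (x1 * x0 - D) = 4 * k ^ 2 - 64 / 25 * D ∧ 2 * H = (x0 - x1) * (1 + u ^ 2) ∧
      G * (x1 ^ 2 + D) - 2 * k * x1 = (x1 - x0) * u * (s * t) := by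
  have hL : 0 < x0 ^ 2 + D := by positivity
  have hA : 0 < G ^ 2 + D := by positivity
  have F0 : G ^ 2 * (x0 ^ 2 + D) - 4 * k * G * x0 + 4 * k ^ 2 -
      D * (64 / 25 - D - x0 ^ 2 + 12 / 5 * x0) = 0 := by
    refine mul_left_cancel₀ hL.ne' ?_
    linear_combination (G * (x0 ^ 2 + D) - 2 * k * x0) * hG - D * K0
  have a1 : (G ^ 2 + D) * (x1 * x0 - D) = 4 * k ^ 2 - 64 / 25 * D := by
    linear_combination x0 * h1 - F0
  have F1 : G ^ 2 * (x1 ^ 2 + D) - 4 * k * G * x1 + 4 * k ^ 2 -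
      D * (64 / 25 - D - x1 ^ 2 + 12 / 5 * x1) = 0 := by
    linear_combination x1 * h1 - a1
  have a3 : G * (x1 ^ 2 + D) - 2 * k * x1 = (x1 - x0) * u * (s * t) := by
    refine mul_left_cancel₀ hx.ne' ?_
    linear_combination x1 * hG - (x1 - x0) * hu
  have a4 : (G * (x1 ^ 2 + D) - 2 * k * x1) ^ 2 = D * ((x0 - x1) * (x1 - x0 + 2 * H) * q1) := by
    linear_combination (x1 ^ 2 + D) * F1 + D * K1
  have a5 : (G ^ 2 + D) * (x0 - x1) * (x0 ^ 2 + D) = 2 * H * D * q0 := by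
    refine mul_left_cancel₀ hL.ne' ?_
    linear_combination (-(x0 ^ 2 + D) ^ 2) * h1 +
      (2 * x0 * (G * (x0 ^ 2 + D) + 2 * k * x0) - 4 * k * (x0 ^ 2 + D)) * hG +
      2 * x0 * D * K0 + D * (x0 ^ 2 + D) * K2
  refine ⟨a1, ?_, a3⟩
  by_cases h : x0 = x1
  · rw [h, sub_self, mul_zero, zero_mul] at a5
    rw [h, sub_self, zero_mul]
    have : 2 * H * (D * q0) = 0 := by linear_combination -a5
    exact (mul_eq_zero.1 this).resolve_right (by positivity)
  · have hq1 : 0 < q1 := by rw [← ht2]; positivity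
    have hne : (x0 - x1) * (D * q1) ≠ 0 := mul_ne_zero (sub_ne_zero.2 h) (by positivity)
    refine mul_left_cancel₀ hne ?_
    rw [a3, mul_pow _ (s * t), mul_pow s t, hs2, ht2] at a4
    linear_combination -a4

theorem cs (u : ℝ) : Real.cos (Real.pi + 2 * Real.arctan u) * (1 + u ^ 2) = u ^ 2 - 1 ∧
    Real.sin (Real.pi + 2 * Real.arctan u) * (1 + u ^ 2) = -(2 * u) := by
  have h : 0 < 1 + u ^ 2 := by positivity
  have hs : √(1 + u ^ 2) * √(1 + u ^ 2) = 1 + u ^ 2 := Real.mul_self_sqrt h.le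
  have hs0 : √(1 + u ^ 2) ≠ 0 := (Real.sqrt_pos.2 h).ne'
  constructor
  · rw [add_comm Real.pi, Real.cos_add_pi, Real.cos_two_mul, Real.cos_sq_arctan]
    field_simp
    ring
  · rw [add_comm Real.pi, Real.sin_add_pi, Real.sin_two_mul, Real.sin_arctan, Real.cos_arctan]
    rw [← hs]
    simp only [Real.sqrt_mul_self (Real.sqrt_nonneg _)]
    field_simp

variable {M H : ℝ}

theorem pos (h0 : Fam0Stmt) (h : (M, H) ∈ Box) : 0 < M ∧ 0 < fK M H ∧ 0 < fD M H ∧ 0 < pxi M H ∧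
    H ^ 2 < 11 / 5 ∧ 1 ≤ 1 / M ∧ ∀ x, 0 < (x - 3 / 5) ^ 2 + 2 * M * (x - 3 / 5) + fN M H := by
  obtain ⟨⟨m1, m2⟩, h1, h2⟩ := h
  simp only at m1 m2 h1 h2
  have hM : 0 < M := by linarith
  obtain ⟨k1, -, k3, -⟩ := h0.2.2.2 M ⟨m1, m2⟩ H ⟨h1, h2⟩
  have hH : H ^ 2 < 11 / 5 := by
    have := pow_le_pow_left₀ h1 h2 2
    rw [h0.2.2.1] at this
    linarith
  have hi : 1 ≤ 1 / M := by rw [le_div_iff₀ hM]; linarith
  refine ⟨hM, k1, by linarith, by unfold pxi; linarith, hH, hi, fun x => ?_⟩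
  have e : (x - 3 / 5) ^ 2 + 2 * M * (x - 3 / 5) + fN M H =
      (x - 3 / 5 + M) ^ 2 + (12 / 5 * (1 / M) - H ^ 2) := by
    unfold fN
    field_simp
    ring
  rw [e]
  have := sq_nonneg (x - 3 / 5 + M)
  linarith

theorem cont (h0 : Fam0Stmt) : ContinuousOn (fun p : ℝ × ℝ => pu p.1 p.2) Box := by
  have P : ∀ p ∈ Box, _ := fun (p : ℝ × ℝ) hp => pos (M := p.1) (H := p.2) h0 hp
  have c5 : ∀ p ∈ Box, 5 * p.1 ≠ 0 := fun p hp => by have := (P p hp).1; positivity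
  have cD : ContinuousOn (fun p : ℝ × ℝ => fD p.1 p.2) Box := by
    unfold fD
    fun_prop (disch := assumption)
  have cN : ContinuousOn (fun p : ℝ × ℝ => fN p.1 p.2) Box := by
    unfold fN
    fun_prop (disch := assumption)
  have cK : ContinuousOn (fun p : ℝ × ℝ => fK p.1 p.2) Box := by
    unfold fK
    fun_prop
  have cx : ContinuousOn (fun p : ℝ × ℝ => pxi p.1 p.2) Box := by
    unfold pxi
    fun_prop
  have n1 : ∀ p ∈ Box, pxi p.1 p.2 ^ 2 + fD p.1 p.2 ≠ 0 := fun p hp => by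
    have := (P p hp).2.2.1
    positivity
  have cG : ContinuousOn (fun p : ℝ × ℝ => pG p.1 p.2) Box := by
    unfold pG
    fun_prop (disch := assumption)
  have n2 : ∀ p ∈ Box, pG p.1 p.2 ^ 2 + fD p.1 p.2 ≠ 0 := fun p hp => by
    have := (P p hp).2.2.1
    positivity
  have cj : ContinuousOn (fun p : ℝ × ℝ => pxj p.1 p.2) Box := by
    unfold pxj
    fun_prop (disch := assumption)
  have cq : ContinuousOn (fun p : ℝ × ℝ => pq p.1 p.2) Box := by
    unfold pq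
    fun_prop
  have n3 : ∀ p ∈ Box, pxi p.1 p.2 ≠ 0 := fun p hp => (P p hp).2.2.2.1.ne'
  have n4 : ∀ p ∈ Box, √(fD p.1 p.2) * √(pq p.1 p.2) ≠ 0 := fun p hp =>
    mul_ne_zero (Real.sqrt_pos.2 (P p hp).2.2.1).ne'
      (Real.sqrt_pos.2 ((P p hp).2.2.2.2.2.2 (pxj p.1 p.2))).ne'
  unfold pu
  fun_prop (disch := assumption)

end Point

open Point in
theorem pointS (h0 : Fam0Stmt) : PointStmt := by
  refine ⟨cont h0, fun M H h => ?_⟩
  obtain ⟨hM, hk, hD, hx, hH, hi, hq⟩ := pos h0 h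
  have hk2 := (h0.2.2.2 M h.1 H h.2).2.1
  have hq1 : 0 < pq M H := hq (pxj M H)
  have hs : 0 < √(fD M H) := Real.sqrt_pos.2 hD
  have ht : 0 < √(pq M H) := Real.sqrt_pos.2 hq1
  have hL : 0 < pxi M H ^ 2 + fD M H := by positivity
  have hGp : 0 < pG M H := by unfold pG; positivity
  have hA : 0 < pG M H ^ 2 + fD M H := by positivity
  have hG : pG M H * (pxi M H ^ 2 + fD M H) = 2 * fK M H * pxi M H := by
    unfold pG
    exact div_mul_cancel₀ _ hL.ne'
  have h1 : (pG M H ^ 2 + fD M H) * (pxi M H + pxj M H) =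
      4 * fK M H * pG M H + 12 / 5 * fD M H := by
    unfold pxj
    rw [add_sub_cancel]
    exact mul_div_cancel₀ _ hA.ne'
  have hu : pu M H * (√(fD M H) * √(pq M H)) * pxi M H =
      pG M H * (pxj M H * pxi M H - fD M H) := by
    unfold pu
    rw [div_mul_cancel₀ _ (mul_pos hs ht).ne']
    field_simp
  have KK : ∀ x, (64 / 25 - fD M H - x ^ 2 + 12 / 5 * x) * (x ^ 2 + fD M H) - 4 * fK M H ^ 2 =
      (pxi M H - x) * (x - pxi M H + 2 * H) *
        ((x - 3 / 5) ^ 2 + 2 * M * (x - 3 / 5) + fN M H) := fun x => by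
    rw [hk2]
    unfold fD fN pxi
    field_simp
    ring
  obtain ⟨a1, a2, a3⟩ := alg (H := H) hD hx (hq (pxi M H)) hs ht (Real.sq_sqrt hD.le)
    (Real.sq_sqrt hq1.le) hG h1 hu (by linear_combination KK (pxi M H)) (KK (pxj M H)) (by
      unfold fD fN pxi
      field_simp
      ring)
  obtain ⟨c1, c2⟩ := cs (pu M H)
  have hu2 : 0 < 1 + pu M H ^ 2 := by positivity
  have x0 : cxi M H 0 = pxi M H := by simp [cxi, pxi]
  have hc : H * Real.cos (ph1 M H) = pxj M H - 3 / 5 - M := by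
    refine mul_right_cancel₀ hu2.ne' ?_
    unfold ph1
    have : pxi M H = M + 3 / 5 + H := rfl
    linear_combination H * c1 - a2 - (1 + pu M H ^ 2) * this
  have hsn : H * Real.sin (ph1 M H) = (pxj M H - pxi M H) * pu M H := by
    refine mul_right_cancel₀ hu2.ne' ?_
    unfold ph1
    linear_combination H * c2 - pu M H * a2
  have x1 : cxi M H (ph1 M H) = pxj M H := by
    unfold cxi
    rw [hc]
    ring
  have g0 : cG M H 0 = pG M H := by
    unfold cG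
    rw [x0]
    simp [fx, pG, mul_assoc]
  have g1 : cG M H (ph1 M H) = pG M H := by
    have e : fq M H (Real.cos (ph1 M H)) = pq M H := by
      unfold fq pq
      rw [hc]
      ring
    unfold cG
    rw [x1, div_eq_iff (by positivity)]
    simp only [fx]
    rw [e, hsn]
    linear_combination -a3
  refine ⟨?_, by rw [g0, g1], ?_⟩
  · have E : 4 * fK M H ^ 2 - 64 / 25 * fD M H =
        (M - 1) * ((M + 1) * (4 * (1 + 6 / 5 * (1 / M) - H ^ 2) + 36 / 25 * (1 / M) ^ 2)) := by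
      rw [hk2]
      unfold fD fN
      field_simp
      ring
    have hb : 0 < (M + 1) * (4 * (1 + 6 / 5 * (1 / M) - H ^ 2) + 36 / 25 * (1 / M) ^ 2) := by
      have : 0 < 1 + 6 / 5 * (1 / M) - H ^ 2 := by linarith
      positivity
    rw [E] at a1
    constructor
    · intro hz
      rw [hz, zero_mul, zero_mul] at hu
      rw [(mul_eq_zero.1 hu.symm).resolve_left hGp.ne', mul_zero] at a1
      exact sub_eq_zero.1 ((mul_eq_zero.1 a1.symm).resolve_right hb.ne')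
    · intro hz
      have hz' : M - 1 = 0 := sub_eq_zero.2 hz
      rw [hz', zero_mul] at a1
      rw [(mul_eq_zero.1 a1).resolve_left hA.ne', mul_zero, mul_assoc] at hu
      exact (mul_eq_zero.1 hu).resolve_right (by positivity)
  · unfold cY
    rw [g0, g1, x0, x1]
    linear_combination h1

end Pool.Agent.MP_1ba41f_an.S2.FM
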