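import Pool.Agent.MP_1ba41f_an.S2.FM.Spec

/-! Row STRIP: the formulas of the family are holomorphic on a strip. -/

noncomputable section
open Set Complex

namespace Pool.Agent.MP_1ba41f_an.S2.FM

namespace Strip

theorem sq_mul {z : ℂ} (h : z ≠ 0) : sq z * sq z = z := by
  unfold sq
  rw [← cpow_add _ _ h]
  norm_num

theorem sq_real {r : ℝ} (h : 0 ≤ r) : sq (r : ℂ) = (√r : ℝ) := by
  unfold sq
  rw [Real.sqrt_eq_rpow, ofReal_cpow h]
  norm_num

theorem cq_real (M H x : ℝ) : cq M H (x : ℂ) = (fq M H x : ℝ) := by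
  unfold cq fq
  push_cast
  ring

/-- The real version of `Rf`. -/
def Rr (M H x : ℝ) : ℝ :=
  fq M H x * (1 - x ^ 2) * (M - 3 / 5 + H * x) ^ 2 +
    ((x * fq M H x - (1 - x ^ 2) * H * (2 * M + H * x)) / 2) ^ 2

theorem Rf_real (M H x : ℝ) : Rf M H (x : ℂ) = (Rr M H x : ℝ) := by
  unfold Rf Rr
  rw [cq_real]
  push_cast
  ring

theorem Rr_ne {M H x : ℝ} (hM : 9 / 10 ≤ M) (hx : x ∈ Icc (-1 : ℝ) 1) (hq : 1 / 4 ≤ fq M H x) :
    Rr M H x ≠ 0 := by
  intro h
  have h1 : 0 ≤ 1 - x ^ 2 := by nlinarith [hx.1, hx.2]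
  have h2 : 0 ≤ fq M H x * (1 - x ^ 2) * (M - 3 / 5 + H * x) ^ 2 := by positivity
  have h3 : 0 ≤ ((x * fq M H x - (1 - x ^ 2) * H * (2 * M + H * x)) / 2) ^ 2 := sq_nonneg _
  unfold Rr at h
  have h4 : fq M H x * (1 - x ^ 2) * (M - 3 / 5 + H * x) ^ 2 = 0 := by linarith
  have h5 : x * fq M H x - (1 - x ^ 2) * H * (2 * M + H * x) = 0 := by
    have : ((x * fq M H x - (1 - x ^ 2) * H * (2 * M + H * x)) / 2) ^ 2 = 0 := by linarith
    have := pow_eq_zero_iff (two_ne_zero) |>.1 this
    linarith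
  rcases mul_eq_zero.1 h4 with h6 | h6
  · rcases mul_eq_zero.1 h6 with h7 | h7
    · linarith
    · rw [h7] at h5
      have h8 : x * fq M H x = 0 := by linarith
      rcases mul_eq_zero.1 h8 with h9 | h9
      · rw [h9] at h7; norm_num at h7
      · linarith
  · have h7 : H * x = 3 / 5 - M := by
      have := pow_eq_zero_iff (two_ne_zero) |>.1 h6
      linarith
    have hM0 : 0 < M := by linarith
    have h8 : H * (x * fq M H x - (1 - x ^ 2) * H * (2 * M + H * x)) =
        6 / 5 * (-41 / 25 + 6 / (5 * M) - M ^ 2 - H ^ 2) := by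
      have e : H * (x * fq M H x - (1 - x ^ 2) * H * (2 * M + H * x)) =
          (H * x) * ((M + H * x) ^ 2 + 2 * M * (M + H * x) + fN M H) -
            (H ^ 2 - (H * x) ^ 2) * (2 * M + H * x) := by
        unfold fq; ring
      rw [e, h7]
      unfold fN
      field_simp
      ring
    rw [h5] at h8
    have h9 : 6 / (5 * M) ≤ 4 / 3 := by
      rw [div_le_iff₀ (by positivity)]; linarith
    nlinarith [sq_nonneg M, sq_nonneg H]

section
variable {X : Type} [TopologicalSpace X] {S : Set X} {M H : X → ℝ} {x : X → ℂ}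

theorem cont_fN (hM : ContinuousOn M S) (hH : ContinuousOn H S) (h : ∀ a ∈ S, 0 < M a) :
    ContinuousOn (fun a => ((fN (M a) (H a) : ℝ) : ℂ)) S := by
  refine continuous_ofReal.comp_continuousOn' ?_
  unfold fN
  refine ContinuousOn.sub (ContinuousOn.add (ContinuousOn.div continuousOn_const (by fun_prop)
    fun p hp => ?_) (by fun_prop)) (by fun_prop)
  have := h p hp
  positivity

theorem cont_fc (hM : ContinuousOn M S) (hH : ContinuousOn H S) (h : ∀ a ∈ S, 0 < M a) :
    ContinuousOn (fun a => ((fc (M a) (H a) : ℝ) : ℂ)) S := by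
  refine continuous_ofReal.comp_continuousOn' ?_
  unfold fc fD
  refine ContinuousOn.div_const (ContinuousOn.sub (ContinuousOn.sub continuousOn_const
    (ContinuousOn.sub (ContinuousOn.sub (ContinuousOn.add continuousOn_const
      (ContinuousOn.div continuousOn_const (by fun_prop) fun p hp => ?_)) (by fun_prop))
      (by fun_prop))) (by fun_prop)) _
  have := h p hp
  positivity

theorem cont_cq (hM : ContinuousOn M S) (hH : ContinuousOn H S) (hx : ContinuousOn x S)
    (h : ∀ a ∈ S, 0 < M a) : ContinuousOn (fun a => cq (M a) (H a) (x a)) S := by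
  have h1 := cont_fN hM hH h
  have h2 : ContinuousOn (fun a => (M a : ℂ)) S := continuous_ofReal.comp_continuousOn' hM
  have h3 : ContinuousOn (fun a => (H a : ℂ)) S := continuous_ofReal.comp_continuousOn' hH
  unfold cq
  fun_prop

theorem cont_Rf (hM : ContinuousOn M S) (hH : ContinuousOn H S) (hx : ContinuousOn x S)
    (h : ∀ a ∈ S, 0 < M a) : ContinuousOn (fun a => Rf (M a) (H a) (x a)) S := by
  have h1 := cont_cq hM hH hx h
  have h2 : ContinuousOn (fun a => (M a : ℂ)) S := continuous_ofReal.comp_continuousOn' hM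
  have h3 : ContinuousOn (fun a => (H a : ℂ)) S := continuous_ofReal.comp_continuousOn' hH
  unfold Rf
  fun_prop

theorem cont_all (hM : ContinuousOn M S) (hH : ContinuousOn H S) (hx : ContinuousOn x S)
    (h : ∀ a ∈ S, 0 < M a) (h1 : ∀ a ∈ S, 0 < (cq (M a) (H a) (cos (x a))).re)
    (h2 : ∀ a ∈ S, Rf (M a) (H a) (cos (x a)) ≠ 0) : ContinuousOn (fun a =>
      (rq (M a) (H a) (x a), Vf (M a) (H a) (x a), Nf (M a) (H a) (x a))) S := by
  have hc : ContinuousOn (fun a => cos (x a)) S := continuous_cos.comp_continuousOn' hx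
  have hs : ContinuousOn (fun a => sin (x a)) S := continuous_sin.comp_continuousOn' hx
  have hM' : ContinuousOn (fun a => (M a : ℂ)) S := continuous_ofReal.comp_continuousOn' hM
  have hH' : ContinuousOn (fun a => (H a : ℂ)) S := continuous_ofReal.comp_continuousOn' hH
  have c1 := cont_cq hM hH hc h
  have c2 := cont_Rf hM hH hc h
  have c3 : ContinuousOn (fun a => rq (M a) (H a) (x a)) S :=
    c1.cpow_const (b := (1 / 2 : ℂ)) fun q hq => Or.inl (h1 q hq)
  have c4 := cont_fc hM hH h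
  have c5 : ContinuousOn (fun a => Vf (M a) (H a) (x a)) S := by
    unfold Vf
    fun_prop
  have c6 : ContinuousOn (fun a => rf (M a) (H a) (x a)) S := by
    unfold rf
    fun_prop
  have c7 : ContinuousOn (fun a => Wf (M a) (H a) (x a)) S := by
    unfold Wf
    fun_prop
  refine c3.prodMk (c5.prodMk ?_)
  unfold Nf
  exact ((c6.mul c7.snd).div c2 h2).prodMk ((c6.mul c7.fst).div c2 h2).neg

end

theorem cos_near (z : ℂ) :
    ‖cos z - (Real.cos z.re : ℝ)‖ ≤ |Real.cosh z.im - 1| + |Real.sinh z.im| := by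
  have e : cos z - (Real.cos z.re : ℝ) = (Real.cos z.re * (Real.cosh z.im - 1) : ℝ) -
      (Real.sin z.re * Real.sinh z.im : ℝ) * I := by
    conv_lhs => rw [← re_add_im z, cos_add_mul_I]
    simp only [add_re, ofReal_re, mul_re, I_re, mul_zero, ofReal_im, I_im, mul_one, sub_self,
      add_zero]
    push_cast
    ring
  rw [e]
  refine (norm_sub_le _ _).trans (add_le_add ?_ ?_)
  · rw [norm_real, Real.norm_eq_abs, abs_mul]
    exact mul_le_of_le_one_left (abs_nonneg _) (Real.abs_cos_le_one _)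
  · rw [norm_mul, norm_I, mul_one, norm_real, Real.norm_eq_abs, abs_mul]
    exact mul_le_of_le_one_left (abs_nonneg _) (Real.abs_sin_le_one _)

theorem width (h0 : Fam0Stmt) : ∃ s1 : ℝ, 0 < s1 ∧ ∀ p ∈ Box, ∀ z ∈ strip s1,
    0 < (cq p.1 p.2 (cos z)).re ∧ Rf p.1 p.2 (cos z) ≠ 0 := by
  have hU : IsOpen {q : (ℝ × ℝ) × ℂ | 0 < q.1.1} := isOpen_lt continuous_const (by fun_prop)
  have hO : IsOpen ({q : (ℝ × ℝ) × ℂ | 0 < q.1.1} ∩
      (fun q : (ℝ × ℝ) × ℂ => (cq q.1.1 q.1.2 q.2, Rf q.1.1 q.1.2 q.2)) ⁻¹'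
        ({w | 0 < w.re} ×ˢ {w | w ≠ 0})) :=
    ((cont_cq (by fun_prop) (by fun_prop) (by fun_prop) fun _ h => h).prodMk
      (cont_Rf (by fun_prop) (by fun_prop) (by fun_prop) fun _ h => h)).isOpen_inter_preimage hU
      ((isOpen_lt continuous_const continuous_re).prod isOpen_ne)
  have hK : IsCompact (Box ×ˢ ((fun x : ℝ => (x : ℂ)) '' Icc (-1) 1)) :=
    (isCompact_Icc.prod isCompact_Icc).prod (isCompact_Icc.image continuous_ofReal)
  obtain ⟨δ, hδ, hsub⟩ := hK.exists_thickening_subset_open hO (by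
    rintro ⟨p, _⟩ ⟨hp, x, hx, rfl⟩
    have hq := (h0.2.2.2 p.1 hp.1 p.2 hp.2).2.2.2.1 x hx
    have hM : 9 / 10 ≤ p.1 := hp.1.1
    refine ⟨show 0 < p.1 by linarith, ?_, ?_⟩
    · show 0 < (cq p.1 p.2 (x : ℂ)).re
      rw [cq_real, ofReal_re]
      linarith
    · show Rf p.1 p.2 (x : ℂ) ≠ 0
      rw [Rf_real]
      exact_mod_cast Rr_ne hM hx hq)
  have hg : ContinuousAt (fun b : ℝ => |Real.cosh b - 1| + |Real.sinh b|) 0 := by fun_prop
  obtain ⟨s1, hs, h1⟩ := Metric.continuousAt_iff.1 hg δ hδ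
  refine ⟨s1, hs, fun p hp z hz => ?_⟩
  have h2 : |Real.cosh z.im - 1| + |Real.sinh z.im| < δ := by
    have := h1 (x := z.im) (by rw [Real.dist_eq, sub_zero]; exact hz)
    rw [Real.dist_eq] at this
    simp only [Real.cosh_zero, sub_self, abs_zero, Real.sinh_zero, add_zero, sub_zero] at this
    exact (le_abs_self _).trans_lt this
  have h3 : (p, cos z) ∈ Metric.thickening δ (Box ×ˢ ((fun x : ℝ => (x : ℂ)) '' Icc (-1) 1)) := by
    refine Metric.mem_thickening_iff.2 ⟨(p, (Real.cos z.re : ℝ)),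
      ⟨hp, _, ⟨Real.neg_one_le_cos _, Real.cos_le_one _⟩, rfl⟩, ?_⟩
    rw [Prod.dist_eq, dist_self, dist_eq_norm]
    exact max_lt hδ ((cos_near z).trans_lt h2)
  exact (hsub h3).2

theorem der_rq {M H : ℝ} {z : ℂ} (h : 0 < (cq M H (cos z)).re) :
    HasDerivAt (rq M H) (-(sin z * H * (2 * M + H * cos z)) / rq M H z) z := by
  have hne : cq M H (cos z) ≠ 0 := fun e => by rw [e] at h; simp at h
  have h1 : HasDerivAt (fun z => cq M H (cos z)) (-(2 * (sin z * H * (2 * M + H * cos z)))) z := by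
    unfold cq
    have e1 : HasDerivAt (fun z => (M : ℂ) + H * cos z) (H * -sin z) z :=
      ((hasDerivAt_cos z).const_mul (H : ℂ)).const_add _
    refine (((e1.fun_pow 2).fun_add (e1.const_mul (2 * (M : ℂ)))).add_const
      (fN M H : ℂ)).congr_deriv ?_
    push_cast
    ring
  have h2 := h1.cpow_const (c := (1 / 2 : ℂ)) (Or.inl h)
  have h3 : rq M H z * rq M H z = cq M H (cos z) := sq_mul hne
  have h4 : rq M H z ≠ 0 := fun e => hne (by rw [← h3, e, mul_zero])
  have h5 : cq M H (cos z) ^ (1 / 2 - 1 : ℂ) = (rq M H z)⁻¹ := by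
    rw [show (1 / 2 - 1 : ℂ) = -(1 / 2) by ring, cpow_neg]
    rfl
  rw [h5] at h2
  refine HasDerivAt.congr_deriv h2 ?_
  field_simp

end Strip

open Strip in
theorem stripS (h0 : Fam0Stmt) : StripStmt := by
  obtain ⟨s1, hs, hw⟩ := width h0
  have hpos : ∀ p ∈ Box, 0 < p.1 := fun p hp => by
    have : 9 / 10 ≤ p.1 := hp.1.1
    linarith
  refine ⟨s1, hs, ?_, fun M H hp => ⟨fun z hz => ?_, fun z => ?_, fun x => ?_⟩⟩
  · exact cont_all (by fun_prop) (by fun_prop) (by fun_prop) (fun q hq => hpos _ hq.1)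
      (fun q hq => (hw _ hq.1 _ hq.2).1) fun q hq => (hw _ hq.1 _ hq.2).2
  · obtain ⟨a1, a2⟩ : 0 < (cq M H (cos z)).re ∧ Rf M H (cos z) ≠ 0 := hw _ hp z hz
    have hne : cq M H (cos z) ≠ 0 := fun e => by rw [e] at a1; simp at a1
    have h3 : rq M H z * rq M H z = cq M H (cos z) := sq_mul hne
    have h4 : rq M H z ≠ 0 := fun e => hne (by rw [← h3, e, mul_zero])
    have hd := der_rq a1
    have d1 : DifferentiableAt ℂ (rq M H) z := hd.differentiableAt
    have d2 : DifferentiableAt ℂ (fun z => cq M H (cos z)) z := by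
      unfold cq
      fun_prop
    have d3 : DifferentiableAt ℂ (fun z => Rf M H (cos z)) z := by
      unfold Rf
      fun_prop
    have d4 : DifferentiableAt ℂ (Wf M H) z := by
      unfold Wf
      fun_prop
    have d5 : DifferentiableAt ℂ (rf M H) z := by
      unfold rf Vf
      fun_prop
    refine ⟨h4, d1, ?_, ?_⟩
    · unfold Nf
      exact ((d5.mul d4.snd).div d3 a2).prodMk ((d5.mul d4.fst).div d3 a2).neg
    · have e1 : HasDerivAt (fun z => (M : ℂ) - 3 / 5 + H * cos z / 2) (H * -sin z / 2) z :=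
        (((hasDerivAt_cos z).const_mul (H : ℂ)).div_const 2).const_add _
      have e2 := ((hasDerivAt_cos z).fun_mul e1).fun_neg
      have e3 := ((hasDerivAt_sin z).fun_mul hd).div_const 2
      refine HasDerivAt.congr_deriv (e2.prodMk e3) (Prod.ext ?_ ?_)
      · simp only [Wf, Prod.smul_mk, smul_eq_mul]
        field_simp
        ring
      · simp only [Wf, Prod.smul_mk, smul_eq_mul]
        rw [← h3, ← sin_sq]
        field_simp
        ring
  · have e1 : cos (z + 2 * Real.pi) = cos z := cos_add_two_pi z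
    have e2 : sin (z + 2 * Real.pi) = sin z := sin_add_two_pi z
    refine ⟨?_, ?_, ?_, ?_, ?_, ?_⟩ <;>
      simp only [rq, Vf, Nf, rf, Wf, Gm, e1, e2, cos_neg, sin_neg]
    · refine Prod.ext rfl ?_
      simp only
      ring
    · refine Prod.ext rfl ?_
      simp only
      ring
  · have hq := (h0.2.2.2 M hp.1 H hp.2).2.2.2.1 (Real.cos x)
      ⟨Real.neg_one_le_cos _, Real.cos_le_one _⟩
    have hR := Rr_ne hp.1.1 ⟨Real.neg_one_le_cos _, Real.cos_le_one _⟩ hq
    have e0 : cq M H (cos x) = (fq M H (Real.cos x) : ℝ) := by rw [← ofReal_cos, cq_real]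
    have e1 : rq M H x = (√(fq M H (Real.cos x)) : ℝ) := by
      unfold rq
      rw [e0, sq_real (by linarith)]
    have e2 : Rf M H (cos x) = (Rr M H (Real.cos x) : ℝ) := by rw [← ofReal_cos, Rf_real]
    have e3 : rf M H x = ((fx M H x).1 : ℝ) := by
      unfold rf Vf fx fc
      push_cast
      ring
    have e4 : (Wf M H x).1 = (√(fq M H (Real.cos x)) * Real.sin x *
        (M - 3 / 5 + H * Real.cos x) : ℝ) := by
      simp only [Wf, e1]
      push_cast
      ring
    have e5 : (Wf M H x).2 = ((Real.cos x * fq M H (Real.cos x) - (1 - Real.cos x ^ 2) * H *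
        (2 * M + H * Real.cos x)) / 2 : ℝ) := by
      simp only [Wf, e0]
      push_cast
      ring
    refine ⟨e1, ⟨?_, ?_⟩, ⟨?_, ?_⟩, ?_, ?_⟩
    · have e6 : (Vf M H x).1 = (-(Real.cos x * (M - 3 / 5 + H * Real.cos x / 2)) : ℝ) := by
        simp only [Vf]
        push_cast
        ring
      rw [e6, ofReal_im]
    · simp only [Vf, e1, ← ofReal_sin]
      norm_cast
    · simp only [Nf, e2, e3, e5]
      norm_cast
    · simp only [Nf, e2, e3, e4]
      norm_cast
    · refine Prod.ext ?_ ?_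
      · exact e3
      · simp only [Vf, e1, r2c, fx, Prod.smul_mk, smul_eq_mul, Prod.mk_add_mk, zero_add]
        push_cast
        ring
    · have h3 : rq M H x * rq M H x = cq M H (cos x) := sq_mul (by
        rw [e0]; exact_mod_cast (by linarith : fq M H (Real.cos x) ≠ 0))
      have h6 : Rf M H (cos x) ≠ 0 := by rw [e2]; exact_mod_cast hR
      have h7 : (Wf M H x).1 ^ 2 + (Wf M H x).2 ^ 2 = Rf M H (cos x) := by
        simp only [Wf, Rf]
        rw [← h3, ← sin_sq]
        ring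
      rw [← e3]
      simp only [det2, Nf]
      field_simp
      rw [← h7]
      ring

end Pool.Agent.MP_1ba41f_an.S2.FM
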